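import Mathlib

/-! Module VInd: algebraic independence by counting; fixed elements.

PROOF. algInd_of: let E = adjoin k (range x), E' = its algebraic closure in Ω (IntermediateField.algebraicClosure or simply work with A = integralClosure / with Ω' = algebraicClosure E Ω). trdeg: the elements a i lie in Ω' = algebraic closure of k(x) in Ω, which is algebraic over k(x), so trdeg k Ω' ≤ n and ≥ n since a is independent; now Algebra.IsAlgebraic.isTranscendenceBasis_of_lift_le_trdeg_of_finite (used in Pool/Agent/H/MP_ffe2f0_al/NIndep.lean, theorem algebraicIndependent_of_algebraic; copy the pattern) applied to x viewed in Ω' gives that x is a transcendence basis of Ω', in particular independent. n ≤ trdeg k Ω' comes from AlgebraicIndependent.lift_cardinalMk_le_trdeg or similar.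
mem_of_fixed: K char 0, Ω algebraic over K and algebraically closed, so IsAlgClosure K Ω, normal and separable: IsGalois K Ω; InfiniteGalois.mem_bot_iff_fixed / InfiniteGalois.mem_range_algebraMap_iff_fixed (used in Pool/Agent/H/MP_83e36b_nt/C1.lean, descend_elem).
exists_perm: P = ∏ (X - C (x i)) has coefficients in K, so P.map τ = P (coefficientwise, τ fixes K), and P.map τ = ∏ (X - C (τ (x i))); so every τ (x i) is a root of P, i.e. τ (x i) = x (π i); π is injective since τ and x are, so a permutation (Finite.injective_iff_bijective).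
-/

open Polynomial

namespace DiscRat

/-- if the `n` algebraically independent elements `a i` are algebraic over `k(x)` then the `n`
elements `x i` are algebraically independent -/
theorem algInd_of {k Ω : Type*} [Field k] [Field Ω] [Algebra k Ω] {n : ℕ} {a x : Fin n → Ω}
    (ha : AlgebraicIndependent k a)
    (h : ∀ i, IsAlgebraic (IntermediateField.adjoin k (Set.range x)) (a i)) :
    AlgebraicIndependent k x := by
  classical
  let M : Matroid Ω := AlgebraicIndependent.matroid k Ω
  have ha1 : M.Indep (Set.range a) := AlgebraicIndependent.matroid_indep_iff.2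
    ha.to_subtype_range
  have hinj : Function.Injective a := ha.injective
  have ha2 : (Set.range a).encard = n := by
    rw [← Set.image_univ, hinj.encard_image, Set.encard_univ]
    simp
  have hsub : Set.range a ⊆ M.closure (Set.range x) := by
    rintro _ ⟨i, rfl⟩
    rw [AlgebraicIndependent.matroid_closure_eq]
    exact IntermediateField.isAlgebraic_adjoin_iff.1 (h i)
  have hr : (n : ℕ∞) ≤ M.eRk (Set.range x) := by
    rw [← Matroid.eRk_closure_eq, ← ha2]
    exact ha1.encard_le_eRk_of_subset hsub
  have hx1 : (Set.range x).encard ≤ n := by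
    rw [← Set.image_univ]
    refine (Set.encard_image_le _ _).trans ?_
    rw [Set.encard_univ]
    simp
  have hfin : (Set.range x).Finite := Set.finite_range x
  have hind : M.Indep (Set.range x) := by
    rw [Matroid.indep_iff_eRk_eq_encard_of_finite hfin]
    exact le_antisymm (M.eRk_le_encard _) (hx1.trans hr)
  have hx2 : (n : ℕ∞) ≤ (Set.range x).encard := hr.trans (M.eRk_le_encard _)
  have hxinj : Function.Injective x := by
    have h3 : (Set.range x).ncard = n := by
      have h4 : (Set.range x).encard = n := le_antisymm hx1 hx2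
      rw [Set.ncard_def, h4]; simp
    have h5 : (Finset.univ.image x).card = (Finset.univ : Finset (Fin n)).card := by
      rw [← Set.ncard_coe_finset]
      simp [h3]
    intro i j hij
    exact Finset.card_image_iff.1 h5 (by simp) (by simp) hij
  exact AlgebraicIndependent.of_subtype_range hxinj (AlgebraicIndependent.matroid_indep_iff.1 hind)

/-- elements fixed by all automorphisms -/
theorem mem_of_fixed {k Ω : Type*} [Field k] [Field Ω] [Algebra k Ω] [CharZero Ω]
    [IsAlgClosed Ω] (K : IntermediateField k Ω) [Algebra.IsAlgebraic K Ω] (θ : Ω)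
    (h : ∀ τ : Ω ≃ₐ[K] Ω, τ θ = θ) : θ ∈ K := by
  have : IsAlgClosure K Ω := ⟨inferInstance, inferInstance⟩
  have : Normal K Ω := IsAlgClosure.normal K Ω
  have : CharZero K := by
    refine ⟨fun m n hmn => ?_⟩
    have := congrArg (algebraMap K Ω) hmn
    simpa using this
  have : IsGalois K Ω := ⟨⟩
  obtain ⟨y, hy⟩ := (InfiniteGalois.mem_range_algebraMap_iff_fixed θ).2 h
  rw [← hy]
  exact y.2

/-- automorphisms permute the roots -/
theorem exists_perm {k Ω : Type*} [Field k] [Field Ω] [Algebra k Ω] (K : IntermediateField k Ω)
    {n : ℕ} (x : Fin n → Ω) (hx : Function.Injective x)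
    (hco : ∀ j, (∏ i, (X - C (x i))).coeff j ∈ K) (τ : Ω ≃ₐ[K] Ω) :
    ∃ π : Equiv.Perm (Fin n), (τ : Ω →+* Ω) ∘ x = x ∘ π := by
  classical
  have hfix : ∀ y ∈ K, (τ : Ω →+* Ω) y = y := fun y hy => τ.commutes ⟨y, hy⟩
  have h1 : (∏ i, (X - C (x i))).map (τ : Ω →+* Ω) = ∏ i, (X - C (x i)) := by
    ext j
    rw [coeff_map]
    exact hfix _ (hco j)
  have h2 : ∀ i, ∃ j, (τ : Ω →+* Ω) (x i) = x j := by
    intro i
    have h3 : (∏ i, (X - C (x i))).IsRoot ((τ : Ω →+* Ω) (x i)) := by
      rw [← h1, Polynomial.map_prod, IsRoot.def, eval_prod]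
      apply Finset.prod_eq_zero (Finset.mem_univ i)
      simp
    rw [IsRoot.def, eval_prod, Finset.prod_eq_zero_iff] at h3
    obtain ⟨j, _, hj⟩ := h3
    refine ⟨j, ?_⟩
    simpa [sub_eq_zero] using hj
  choose π hπ using h2
  have hπi : Function.Injective π := by
    intro i j hij
    apply hx
    have := (hπ i).trans ((congrArg x hij).trans (hπ j).symm)
    exact (τ : Ω →+* Ω).injective this
  exact ⟨Equiv.ofBijective π (Finite.injective_iff_bijective.1 hπi), funext hπ⟩

end DiscRat
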