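import Pool.Agent.H.DiscRat.VStat

/-! Module VSplit: universal discriminant and splitting modulo y^2 - c disc.

PROOF. aeval_discMv: for a monic polynomial over a nontrivial commutative ring of degree n > 0 Mathlib's Polynomial.resultant_deriv gives discr = (-1)^(n(n-1)/2) * resultant f f' n (n-1) (see A3b_resultant_deriv in Pool/Agent/H/MP_83e36b_nt/A3b.lean, stated for any nontrivial CommRing, and A3b_discr_map for the field case, whose proof works verbatim for a ring homomorphism from a nontrivial commutative ring to a field since f is monic: copy it); monicPoly_map-type lemma for the ring hom aeval p (Statement.lean has monicPoly_map for commutative rings). monicPoly is monic of degree n: J1.lean has monicPoly_monic and monicPoly_natDegree for nontrivial commutative rings (import J1 only if cheap; otherwise copy the two short proofs under new names). n = 0: both polynomials are 1, discr_C.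
exists_split: MvPolynomial.induction_on H: constants (rename some (C a) = C a), sums, and H * X i: for i = some j multiply H0, H1, R; for i = none: (H0 + H1 Y + D R) Y with D = Y^2 - C c * disc: H1 Y^2 = H1 D + H1 c disc, so the new H0 is C c * discMv * H1, the new H1 is H0, the new R is rename some H1 + R Y.
aeval_split: aeval_rename, pt p z ∘ some = p, pt p z none = z.
-/

open Polynomial

namespace DiscRat

open AnWA

/-- the discriminant of the generic monic polynomial -/
noncomputable def discMv (k : Type*) [Field k] (n : ℕ) : MvPolynomial (Fin n) k :=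
  (monicPoly (fun i => (MvPolynomial.X i : MvPolynomial (Fin n) k))).discr

theorem vsplit_monic {R : Type*} [CommRing R] [Nontrivial R] {n : ℕ} (a : Fin n → R) :
    (monicPoly a).Monic :=
  monic_X_pow_add (degree_sum_fin_lt a)

theorem vsplit_natDegree {R : Type*} [CommRing R] [Nontrivial R] {n : ℕ} (a : Fin n → R) :
    (monicPoly a).natDegree = n := by
  apply natDegree_eq_of_degree_eq_some
  unfold monicPoly
  have h : (∑ i, C (a i) * X ^ (i : ℕ) : R[X]).degree < (n : ℕ) := degree_sum_fin_lt a
  rw [degree_add_eq_left_of_degree_lt, degree_X_pow]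
  rw [degree_X_pow]
  exact h

theorem vsplit_resultant_deriv {L : Type*} [CommRing L] [Nontrivial L] {f : L[X]} (hf : f.Monic)
    (hn : 0 < f.natDegree) : f.discr = (-1) ^ (f.natDegree * (f.natDegree - 1) / 2) *
      resultant f f.derivative f.natDegree (f.natDegree - 1) := by
  rw [resultant_deriv (natDegree_pos_iff_degree_pos.1 hn), hf.leadingCoeff, mul_one, ← mul_assoc,
    ← pow_add, ← two_mul, pow_mul]
  simp

theorem vsplit_discr_map {K L : Type*} [CommRing K] [Nontrivial K] [Field L] (φ : K →+* L)
    {f : K[X]} (hf : f.Monic) : φ f.discr = (f.map φ).discr := by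
  rcases Nat.eq_zero_or_pos f.natDegree with h | h
  · have h1 : f = 1 := hf.natDegree_eq_zero.1 h
    rw [h1, Polynomial.map_one, ← C_1, ← C_1, discr_C, discr_C, map_one]
  · have h2 : (f.map φ).natDegree = f.natDegree := hf.natDegree_map φ
    rw [vsplit_resultant_deriv hf h, vsplit_resultant_deriv (hf.map φ) (by rwa [h2]),
      map_mul, h2, derivative_map, resultant_map_map]
    simp

theorem aeval_discMv {k K : Type*} [Field k] [Field K] [Algebra k K] {n : ℕ} (p : Fin n → K) :
    MvPolynomial.aeval p (discMv k n) = (monicPoly p).discr := by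
  rw [discMv]
  have h1 := vsplit_discr_map
    ((MvPolynomial.aeval p : MvPolynomial (Fin n) k →ₐ[k] K) : MvPolynomial (Fin n) k →+* K)
    (vsplit_monic (fun i => (MvPolynomial.X i : MvPolynomial (Fin n) k)))
  rw [← monicPoly_map] at h1
  simpa using h1

theorem exists_split {k : Type*} [Field k] {n : ℕ} (c : k)
    (H : MvPolynomial (Option (Fin n)) k) : ∃ (H0 H1 : MvPolynomial (Fin n) k)
    (R : MvPolynomial (Option (Fin n)) k), H = MvPolynomial.rename some H0
      + MvPolynomial.rename some H1 * MvPolynomial.X none
      + (MvPolynomial.X none ^ 2 - MvPolynomial.C c * MvPolynomial.rename some (discMv k n)) * R := by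
  induction H using MvPolynomial.induction_on with
  | C a =>
    refine ⟨MvPolynomial.C a, 0, 0, ?_⟩
    rw [MvPolynomial.rename_C, map_zero]
    ring
  | add p q hp hq =>
    obtain ⟨a0, a1, r, hr⟩ := hp
    obtain ⟨b0, b1, s, hs⟩ := hq
    refine ⟨a0 + b0, a1 + b1, r + s, ?_⟩
    rw [map_add, map_add]
    linear_combination hr + hs
  | mul_X p i hp =>
    obtain ⟨a0, a1, r, hr⟩ := hp
    cases i with
    | none =>
      refine ⟨MvPolynomial.C c * discMv k n * a1, a0,
        MvPolynomial.rename some a1 + r * MvPolynomial.X none, ?_⟩
      rw [map_mul, map_mul, MvPolynomial.rename_C]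
      linear_combination hr * MvPolynomial.X none
    | some j =>
      refine ⟨a0 * MvPolynomial.X j, a1 * MvPolynomial.X j, r * MvPolynomial.X (some j), ?_⟩
      rw [map_mul, map_mul, MvPolynomial.rename_X]
      linear_combination hr * MvPolynomial.X (some j)

/-- the value of `H` at a point of `c * disc (f) = z ^ 2` -/
theorem aeval_split {k K : Type*} [Field k] [Field K] [Algebra k K] {n : ℕ} {c : k}
    {H : MvPolynomial (Option (Fin n)) k} {H0 H1 : MvPolynomial (Fin n) k}
    {R : MvPolynomial (Option (Fin n)) k} (h : H = MvPolynomial.rename some H0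
      + MvPolynomial.rename some H1 * MvPolynomial.X none
      + (MvPolynomial.X none ^ 2 - MvPolynomial.C c * MvPolynomial.rename some (discMv k n)) * R)
    (p : Fin n → K) (z : K) (hz : algebraMap k K c * (monicPoly p).discr = z ^ 2) :
    MvPolynomial.aeval (pt p z) H
      = MvPolynomial.aeval p H0 + MvPolynomial.aeval p H1 * z := by
  have h1 : pt p z ∘ some = p := rfl
  have h2 : pt p z none = z := rfl
  rw [h, map_add, map_add, map_mul, map_mul, map_sub, map_mul, map_pow, MvPolynomial.aeval_rename,
    MvPolynomial.aeval_rename, MvPolynomial.aeval_rename, h1, MvPolynomial.aeval_X, h2,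
    aeval_discMv, MvPolynomial.aeval_C, hz, sub_self, zero_mul, add_zero]

end DiscRat
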