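import Pool.Agent.H.DiscRat.VStat
import Pool.Agent.H.MP_83e36b_nt.Defs
import Pool.Agent.H.MP_83e36b_nt.A3b
import Pool.Agent.H.DiscRat.VSplit

/-! Module VKey: independence of 1 and the square root of the discriminant.

PROOF. monicPoly_co: ∏ (X - C (w j)) is monic of degree n; compare coefficients (monicPoly_of_monic in Pool/Agent/H/MP_83e36b_nt/J1.lean is exactly this; rootPoly is in Defs.lean).
co_map: coeff_map, Polynomial.map_prod.
key_zero: apply the L-algebra automorphism rename (Equiv.swap 0 1) of MvPolynomial (Fin n) L (n ≥ 2): it fixes co X (a product over all indices: Finset/Equiv.prod_comp), hence all aeval (co X) G (it is also a k-algebra map; use AlgHom.comp / MvPolynomial.aeval comparison), and it changes the sign of the Vandermonde determinant (vandermonde (X ∘ σ) = (vandermonde X).submatrix σ id, Matrix.det_permute, sign_swap). So h and its image give 2 * aeval (co X) G0 = 0 and 2 * aeval (co X) G1 * (C γ * det) = 0; char 0, domain, γ ≠ 0 and det vandermonde X ≠ 0 (Matrix.det_vandermonde_ne_zero_iff, MvPolynomial.X_injective):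 aeval (co X) G0 = aeval (co X) G1 = 0. Now a polynomial G over k with aeval (co X) G = 0 is zero: for every p : Fin n → L there is w : Fin n → L with co w = p (monicPoly p splits in L, IsAlgClosed; enumerate its roots, A3b_enum in A3b.lean), and evaluating the identity at w (eval w ∘ aeval (co X) = aeval (co w), co_map) gives aeval p G = 0 for all p : Fin n → L, so G.map (algebraMap k L) = 0 (MvPolynomial.funext, L infinite) and G = 0 (MvPolynomial.map_injective).
key_sq: let L = AlgebraicClosure k (char 0), γ with γ^2 = algebraMap c (IsAlgClosed.exists_pow_nat_eq or exists_eq_mul_self), γ ≠ 0. Apply aeval (co X) : MvPolynomial (Fin n) k → MvPolynomial (Fin n) L to h: (aeval (co X) G0)^2 = (aeval (co X) G1 * (C γ * V))^2 with V = det vandermonde X, because aeval (co X) (discMv k n) = V^2: e.g. check it after evaluation at every w : Fin n → L (MvPolynomial.funext): eval w (aeval (co X) (discMv k n)) = aeval (co w) (discMv) = (monicPoly (co w)).discr = (rootPoly w).discr = (det vandermonde w)^2 (aeval_discMv, monicPoly_co, discr_rootPoly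 in A3b.lean). sq_eq_sq_iff_eq_or_eq_neg in the domain, and key_zero applied to (G0, -G1) or (G0, G1).
-/

open Polynomial

namespace DiscRat

open AnWA

/-- the coefficients of `∏ (X - w i)` -/
noncomputable def co {R : Type*} [CommRing R] {n : ℕ} (w : Fin n → R) : Fin n → R :=
  fun i => (∏ j, (X - C (w j))).coeff i

theorem vkey_coeff {R : Type*} [CommRing R] {n : ℕ} (a : Fin n → R) (i : Fin n) :
    (monicPoly a).coeff i = a i := by
  unfold monicPoly
  rw [coeff_add, coeff_X_pow, if_neg (by omega), zero_add, finsetSum_coeff]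
  rw [Finset.sum_eq_single i]
  · rw [coeff_C_mul, coeff_X_pow, if_pos rfl, mul_one]
  · intro j _ hj
    rw [coeff_C_mul, coeff_X_pow, if_neg (fun e => hj (Fin.ext e.symm)), mul_zero]
  · intro h
    exact absurd (Finset.mem_univ i) h

/-- `monicPoly` of the coefficients is `∏ (X - w i)` -/
theorem monicPoly_co {R : Type*} [Field R] {n : ℕ} (w : Fin n → R) :
    monicPoly (co w) = rootPoly w := by
  have hg := A3b_monic w
  have hn := A3b_natDegree w
  have hc : co w = fun i : Fin n => (rootPoly w).coeff i := rfl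
  rw [hc]
  ext j
  rcases lt_trichotomy j n with hj | hj | hj
  · exact vkey_coeff (fun i : Fin n => (rootPoly w).coeff i) ⟨j, hj⟩
  · have h1 := vsplit_monic (fun i : Fin n => (rootPoly w).coeff i)
    have h2 := vsplit_natDegree (fun i : Fin n => (rootPoly w).coeff i)
    rw [Monic, leadingCoeff, h2] at h1
    rw [hj, h1]
    rw [Monic, leadingCoeff, hn] at hg
    exact hg.symm
  · rw [coeff_eq_zero_of_natDegree_lt (by rw [vsplit_natDegree]; exact hj),
      coeff_eq_zero_of_natDegree_lt (by rw [hn]; exact hj)]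

theorem co_map {R S : Type*} [CommRing R] [CommRing S] (φ : R →+* S) {n : ℕ} (w : Fin n → R) :
    co (fun i => φ (w i)) = fun i => φ (co w i) := by
  funext i
  simp only [co]
  rw [← coeff_map, Polynomial.map_prod]
  simp

theorem vkey_comp {k L A : Type*} [Field k] [Field L] [Algebra k L] [CommRing A] [Algebra L A]
    [Algebra k A] [IsScalarTower k L A] {n : ℕ} (φ : MvPolynomial (Fin n) L →ₐ[L] A)
    (G : MvPolynomial (Fin n) k) :
    φ (MvPolynomial.aeval (co (fun i => (MvPolynomial.X i : MvPolynomial (Fin n) L))) G)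
      = MvPolynomial.aeval (co (fun i => φ (MvPolynomial.X i))) G := by
  have h1 := congrFun (congrArg DFunLike.coe (MvPolynomial.comp_aeval
    (co (fun i => (MvPolynomial.X i : MvPolynomial (Fin n) L))) (φ.restrictScalars k))) G
  have h2 := co_map (φ : MvPolynomial (Fin n) L →+* A)
    (fun i => (MvPolynomial.X i : MvPolynomial (Fin n) L))
  have h3 : (co fun i => φ (MvPolynomial.X i)) = fun i => φ (co
    (fun i => (MvPolynomial.X i : MvPolynomial (Fin n) L)) i) := h2
  rw [h3]
  exact h1

theorem vkey_exists {L : Type*} [Field L] [IsAlgClosed L] {n : ℕ} (p : Fin n → L) :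
    ∃ w : Fin n → L, co w = p ∧ monicPoly p = rootPoly w := by
  have hsplit : (monicPoly p).Splits := IsAlgClosed.splits _
  have hcard : (monicPoly p).roots.card = n := by
    rw [← hsplit.natDegree_eq_card_roots, vsplit_natDegree]
  obtain ⟨w, hw⟩ : ∃ w : Fin n → L, Finset.univ.val.map w = (monicPoly p).roots := by
    generalize (monicPoly p).roots = s at hcard
    subst hcard
    obtain ⟨l, rfl⟩ := Quot.exists_rep s
    refine ⟨fun i => l.get i, ?_⟩
    rw [Fin.univ_val_map]
    change ((List.ofFn l.get : List L) : Multiset L) = (l : Multiset L)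
    rw [List.ofFn_get]
  have hrp : monicPoly p = rootPoly w := by
    have h3 := hsplit.eq_prod_roots_of_monic (vsplit_monic p)
    rw [h3, rootPoly, ← hw, Multiset.map_map]
    rfl
  refine ⟨w, ?_, hrp⟩
  funext i
  have h4 : (rootPoly w).coeff i = p i := by
    rw [← hrp]
    exact vkey_coeff p i
  exact h4

theorem vkey_inj {k L : Type*} [Field k] [Field L] [Algebra k L] [IsAlgClosed L] [CharZero L]
    {n : ℕ} (G : MvPolynomial (Fin n) k)
    (h : MvPolynomial.aeval (co (fun i => (MvPolynomial.X i : MvPolynomial (Fin n) L))) G = 0) :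
    G = 0 := by
  have hall : ∀ p : Fin n → L, MvPolynomial.aeval p G = 0 := by
    intro p
    obtain ⟨w, hw, -⟩ := vkey_exists p
    have h1 := vkey_comp (MvPolynomial.aeval w : MvPolynomial (Fin n) L →ₐ[L] L) G
    rw [h, map_zero] at h1
    simp only [MvPolynomial.aeval_X] at h1
    have h2 : (co fun i => w i) = p := hw
    rw [h2] at h1
    exact h1.symm
  apply MvPolynomial.map_injective (algebraMap k L) (algebraMap k L).injective
  apply MvPolynomial.funext
  intro x
  rw [MvPolynomial.eval_map, ← MvPolynomial.aeval_def, hall x, map_zero, map_zero]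

theorem vkey_det {L : Type*} [Field L] {n : ℕ} {i0 i1 : Fin n} (hi : i0 ≠ i1) :
    MvPolynomial.rename (Equiv.swap i0 i1)
      (Matrix.vandermonde (fun i => (MvPolynomial.X i : MvPolynomial (Fin n) L))).det
      = - (Matrix.vandermonde (fun i => (MvPolynomial.X i : MvPolynomial (Fin n) L))).det := by
  have h1 := AlgHom.map_det (MvPolynomial.rename (Equiv.swap i0 i1) :
    MvPolynomial (Fin n) L →ₐ[L] MvPolynomial (Fin n) L)
    (Matrix.vandermonde (fun i => (MvPolynomial.X i : MvPolynomial (Fin n) L)))
  have h2 : (MvPolynomial.rename (Equiv.swap i0 i1) :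
      MvPolynomial (Fin n) L →ₐ[L] MvPolynomial (Fin n) L).mapMatrix
      (Matrix.vandermonde (fun i => (MvPolynomial.X i : MvPolynomial (Fin n) L)))
      = (Matrix.vandermonde (fun i => (MvPolynomial.X i : MvPolynomial (Fin n) L))).submatrix
        (Equiv.swap i0 i1) id := by
    ext1 i j
    simp [Matrix.vandermonde_apply]
  rw [h1, h2, Matrix.det_permute, Equiv.Perm.sign_swap hi]
  simp

theorem vkey_co_rename {L : Type*} [Field L] {n : ℕ} (σ : Equiv.Perm (Fin n)) :
    (co (fun i => (MvPolynomial.rename σ (MvPolynomial.X i) : MvPolynomial (Fin n) L)))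
      = co (fun i => (MvPolynomial.X i : MvPolynomial (Fin n) L)) := by
  funext i
  simp only [co, MvPolynomial.rename_X]
  rw [Equiv.prod_comp σ (fun j => (X - C (MvPolynomial.X j : MvPolynomial (Fin n) L)))]

theorem key_zero {k L : Type*} [Field k] [Field L] [Algebra k L] [IsAlgClosed L] [CharZero L]
    {n : ℕ} (hn : 2 ≤ n) {γ : L} (hγ : γ ≠ 0) (G0 G1 : MvPolynomial (Fin n) k)
    (h : MvPolynomial.aeval (co (fun i => (MvPolynomial.X i : MvPolynomial (Fin n) L))) G0
      + MvPolynomial.aeval (co (fun i => (MvPolynomial.X i : MvPolynomial (Fin n) L))) G1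
        * (MvPolynomial.C γ *
          (Matrix.vandermonde (fun i => (MvPolynomial.X i : MvPolynomial (Fin n) L))).det) = 0) :
    G0 = 0 ∧ G1 = 0 := by
  have hi : (⟨0, by omega⟩ : Fin n) ≠ ⟨1, by omega⟩ := by
    intro e
    have := congrArg Fin.val e
    simp at this
  have h1 := congrArg (MvPolynomial.rename (Equiv.swap (⟨0, by omega⟩ : Fin n) ⟨1, by omega⟩) :
    MvPolynomial (Fin n) L →ₐ[L] MvPolynomial (Fin n) L) h
  rw [map_zero, map_add, map_mul, map_mul, vkey_det hi, MvPolynomial.rename_C, vkey_comp,
    vkey_comp, vkey_co_rename] at h1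
  have hD : (Matrix.vandermonde (fun i => (MvPolynomial.X i : MvPolynomial (Fin n) L))).det ≠ 0 :=
    Matrix.det_vandermonde_ne_zero_iff.2 (MvPolynomial.X_injective)
  have hγ' : (MvPolynomial.C γ : MvPolynomial (Fin n) L) ≠ 0 := by
    rw [Ne, MvPolynomial.C_eq_zero]
    exact hγ
  have h2 : (2 : MvPolynomial (Fin n) L) ≠ 0 := two_ne_zero
  constructor
  · apply vkey_inj (L := L)
    have h3 : (2 : MvPolynomial (Fin n) L) *
        MvPolynomial.aeval (co (fun i => (MvPolynomial.X i : MvPolynomial (Fin n) L))) G0 = 0 := by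
      linear_combination h + h1
    exact (mul_eq_zero.1 h3).resolve_left h2
  · apply vkey_inj (L := L)
    have h3 : ((2 : MvPolynomial (Fin n) L) * (MvPolynomial.C γ *
        (Matrix.vandermonde (fun i => (MvPolynomial.X i : MvPolynomial (Fin n) L))).det)) *
        MvPolynomial.aeval (co (fun i => (MvPolynomial.X i : MvPolynomial (Fin n) L))) G1 = 0 := by
      linear_combination h - h1
    exact (mul_eq_zero.1 h3).resolve_left (mul_ne_zero h2 (mul_ne_zero hγ' hD))

theorem vkey_disc {k L : Type*} [Field k] [Field L] [Algebra k L] [Infinite L] {n : ℕ} :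
    MvPolynomial.aeval (co (fun i => (MvPolynomial.X i : MvPolynomial (Fin n) L))) (discMv k n)
      = (Matrix.vandermonde (fun i => (MvPolynomial.X i : MvPolynomial (Fin n) L))).det ^ 2 := by
  apply MvPolynomial.funext
  intro w
  have h1 := vkey_comp (MvPolynomial.aeval w : MvPolynomial (Fin n) L →ₐ[L] L) (discMv k n)
  simp only [MvPolynomial.aeval_X] at h1
  have h2 : (MvPolynomial.aeval w : MvPolynomial (Fin n) L →ₐ[L] L).mapMatrix
      (Matrix.vandermonde (fun i => (MvPolynomial.X i : MvPolynomial (Fin n) L)))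
      = Matrix.vandermonde w := by
    ext1 i j
    simp [Matrix.vandermonde_apply]
  rw [← MvPolynomial.aeval_eq_eval]
  change (MvPolynomial.aeval w : MvPolynomial (Fin n) L →ₐ[L] L) _
    = (MvPolynomial.aeval w : MvPolynomial (Fin n) L →ₐ[L] L) _
  rw [h1, aeval_discMv, map_pow, AlgHom.map_det, h2, ← discr_rootPoly, ← monicPoly_co]

/-- `c * disc` is not a square in the field of rational functions -/
theorem key_sq {k : Type*} [Field k] [CharZero k] {n : ℕ} (hn : 2 ≤ n) {c : k} (hc : c ≠ 0)
    (G0 G1 : MvPolynomial (Fin n) k) (h : G0 ^ 2 = G1 ^ 2 * (MvPolynomial.C c * discMv k n)) :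
    G0 = 0 ∧ G1 = 0 := by
  obtain ⟨γ, hγ⟩ := IsAlgClosed.exists_pow_nat_eq (algebraMap k (AlgebraicClosure k) c)
    (n := 2) (by norm_num)
  have hγ0 : γ ≠ 0 := by
    rintro rfl
    rw [zero_pow two_ne_zero] at hγ
    exact hc ((map_eq_zero (algebraMap k (AlgebraicClosure k))).1 hγ.symm)
  have : CharZero (AlgebraicClosure k) := charZero_of_injective_algebraMap
    (algebraMap k (AlgebraicClosure k)).injective
  have h1 := congrArg (MvPolynomial.aeval
    (co (fun i => (MvPolynomial.X i : MvPolynomial (Fin n) (AlgebraicClosure k))))) h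
  rw [map_mul, map_mul, map_pow, map_pow, vkey_disc, MvPolynomial.algHom_C,
    IsScalarTower.algebraMap_apply k (AlgebraicClosure k), ← hγ, MvPolynomial.algebraMap_eq,
    map_pow, ← mul_pow, ← mul_pow, sq_eq_sq_iff_eq_or_eq_neg] at h1
  rcases h1 with h1 | h1
  · have h2 := key_zero hn hγ0 G0 (-G1) (by
      rw [map_neg, neg_mul, h1, add_neg_cancel])
    exact ⟨h2.1, neg_eq_zero.1 h2.2⟩
  · exact key_zero hn hγ0 G0 G1 (by
      rw [h1, neg_add_cancel])

end DiscRat
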