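import Pool.Agent.H.DiscRat.VStat
import Pool.Agent.H.DiscRat.VKey
import Pool.Agent.H.DiscRat.VInd
import Pool.Agent.H.MP_83e36b_nt.A3b
import Pool.Agent.H.MP_ffe2f0_al.NAct
import Pool.Agent.H.MP_ffe2f0_al.NGeneric
import Pool.Agent.H.MP_ffe2f0_al.NGalois

/-! Module VAlt: the invariant field of the alternating group is the function field of
`disc (f) = y ^ 2`. -/

open Polynomial

namespace DiscRat

open AnWA NoetherAn

variable (k : Type*) [Field k] (n : ℕ)

/-- the product of the differences of the variables -/
noncomputable def vdm : RatField k n := (Matrix.vandermonde (vr k n)).det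

theorem vandermonde_perm {L : Type*} [CommRing L] (x : Fin n → L) (σ : Equiv.Perm (Fin n)) :
    (Matrix.vandermonde (fun i => x (σ i))).det =
      ((Equiv.Perm.sign σ : ℤˣ) : ℤ) * (Matrix.vandermonde x).det := by
  have h : Matrix.vandermonde (fun i => x (σ i)) = (Matrix.vandermonde x).submatrix σ id := by
    ext i j
    simp [Matrix.vandermonde_apply]
  rw [h, Matrix.det_permute]

theorem co_perm {L : Type*} [CommRing L] (x : Fin n → L) (σ : Equiv.Perm (Fin n)) :
    co (fun i => x (σ i)) = co x := by
  funext j
  unfold co
  rw [Equiv.prod_comp σ (fun i => X - C (x i))]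

theorem map_vdm (φ : RatField k n →+* RatField k n) (σ : Equiv.Perm (Fin n))
    (h : ∀ i, φ (vr k n i) = vr k n (σ i)) :
    φ (vdm k n) = ((Equiv.Perm.sign σ : ℤˣ) : ℤ) * vdm k n := by
  have h1 : φ (vdm k n) = (Matrix.vandermonde (fun i => vr k n (σ i))).det := by
    unfold vdm
    rw [RingHom.map_det]
    congr 1
    ext i j
    simp [Matrix.vandermonde_apply, h]
  rw [h1, vandermonde_perm]
  rfl

theorem map_co (φ : RatField k n →+* RatField k n) (σ : Equiv.Perm (Fin n))
    (h : ∀ i, φ (vr k n i) = vr k n (σ i)) (j : Fin n) :
    φ (co (vr k n) j) = co (vr k n) j := by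
  have h1 := congrFun (co_map φ (vr k n)) j
  rw [← h1]
  have h2 : (fun i => φ (vr k n i)) = fun i => vr k n (σ i) := funext h
  rw [h2, co_perm]

theorem co_mem_altInv (j : Fin n) : co (vr k n) j ∈ altInv k n := by
  intro σ _
  exact map_co k n (permAct k n σ : RatField k n →+* RatField k n) σ
    (fun i => permAct_vr k n σ i) j

theorem vdm_mem_altInv : vdm k n ∈ altInv k n := by
  intro σ hσ
  have h := map_vdm k n (permAct k n σ : RatField k n →+* RatField k n) σ
    (fun i => permAct_vr k n σ i)
  rw [Equiv.Perm.mem_alternatingGroup.1 hσ] at h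
  simpa using h

theorem vdm_ne_zero : vdm k n ≠ 0 :=
  Matrix.det_vandermonde_ne_zero_iff.2 (vr_injective k n)

theorem coeff_mem (K1 : IntermediateField k (RatField k n)) (hco : ∀ j, co (vr k n) j ∈ K1)
    (j : ℕ) : (∏ i, (X - C (vr k n i))).coeff j ∈ K1 := by
  have hm : (∏ i, (X - C (vr k n i))).Monic := monic_prod_of_monic _ _ fun i _ => monic_X_sub_C _
  have hd : (∏ i, (X - C (vr k n i))).natDegree = n := by
    rw [natDegree_prod_of_monic _ _ fun i _ => monic_X_sub_C _]
    simp
  rcases lt_trichotomy j n with h | h | h
  · exact hco ⟨j, h⟩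
  · have h1 := hm.coeff_natDegree
    rw [hd] at h1
    rw [h, h1]
    exact one_mem K1
  · rw [coeff_eq_zero_of_natDegree_lt (by rw [hd]; exact h)]
    exact zero_mem K1

/-- a field containing the elementary symmetric functions and the product of the differences
contains all invariants of the alternating group -/
theorem altInv_le_of [CharZero k] (K1 : IntermediateField k (RatField k n))
    (hco : ∀ j, co (vr k n) j ∈ K1) (hd : vdm k n ∈ K1) : altInv k n ≤ K1 := by
  classical
  have hchar := charZero_ratField k n
  have hx := vr_injective k n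
  set P : (RatField k n)[X] := ∏ i, (X - C (vr k n i)) with hP
  obtain ⟨p, hp⟩ : ∃ p : K1[X], p.map (algebraMap K1 (RatField k n)) = P := by
    rw [← Polynomial.mem_lifts, Polynomial.lifts_iff_coeff_lifts]
    intro j
    exact ⟨⟨P.coeff j, coeff_mem k n K1 hco j⟩, rfl⟩
  have hPsep : P.Separable := Polynomial.separable_prod_X_sub_C_iff.2 hx
  have hpsep : p.Separable := by
    rw [← Polynomial.separable_map (algebraMap K1 (RatField k n)), hp]; exact hPsep
  have hP0 : P ≠ 0 := hPsep.ne_zero
  have hp0 : p ≠ 0 := by
    intro h; rw [h, Polynomial.map_zero] at hp; exact hP0 hp.symm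
  have hroot : ∀ i, vr k n i ∈ p.rootSet (RatField k n) := by
    intro i
    rw [Polynomial.mem_rootSet]
    refine ⟨hp0, ?_⟩
    rw [Polynomial.aeval_def, ← Polynomial.eval_map, hp, hP, Polynomial.eval_prod]
    exact Finset.prod_eq_zero (Finset.mem_univ i) (by simp)
  have hsf : p.IsSplittingField K1 (RatField k n) := by
    rw [isSplittingField_iff_intermediateField]
    constructor
    · rw [hp, hP]
      exact Polynomial.Splits.prod fun i _ => Polynomial.Splits.X_sub_C _
    · rw [eq_top_iff]
      intro y _
      have h1 : IntermediateField.adjoin k (Set.range (vr k n)) ≤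
          (IntermediateField.adjoin K1 (p.rootSet (RatField k n))).restrictScalars k := by
        rw [IntermediateField.adjoin_le_iff]
        rintro _ ⟨i, rfl⟩
        have h2 : vr k n i ∈ IntermediateField.adjoin K1 (p.rootSet (RatField k n)) :=
          IntermediateField.subset_adjoin K1 (p.rootSet (RatField k n)) (hroot i)
        rw [SetLike.mem_coe, IntermediateField.mem_restrictScalars]
        exact h2
      rw [adjoin_vr] at h1
      exact h1 (IntermediateField.mem_top (F := k) (E := RatField k n) (x := y))
  have : FiniteDimensional K1 (RatField k n) :=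
    Polynomial.IsSplittingField.finiteDimensional (RatField k n) p
  have : IsGalois K1 (RatField k n) := IsGalois.of_separable_splitting_field hpsep
  intro f hf
  have key : f ∈ Set.range (algebraMap K1 (RatField k n)) := by
    rw [IsGalois.mem_range_algebraMap_iff_fixed]
    intro τ
    have hex : ∀ i, ∃ j, τ (vr k n i) = vr k n j := by
      intro i
      have h1 : Polynomial.aeval (τ (vr k n i)) p = 0 := by
        have h2 := (Polynomial.mem_rootSet.1 (hroot i)).2
        have h3 := Polynomial.aeval_algHom_apply (τ : RatField k n →ₐ[K1] RatField k n)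
          (vr k n i) p
        rw [h2, map_zero] at h3
        exact h3
      rw [Polynomial.aeval_def, ← Polynomial.eval_map, hp, hP, Polynomial.eval_prod,
        Finset.prod_eq_zero_iff] at h1
      obtain ⟨j, -, hj⟩ := h1
      refine ⟨j, ?_⟩
      rw [Polynomial.eval_sub, Polynomial.eval_X, Polynomial.eval_C, sub_eq_zero] at hj
      exact hj
    choose π hπ using hex
    have hπi : Function.Injective π := by
      intro i j hij
      apply hx
      apply τ.injective
      rw [hπ i, hπ j, hij]
    set σ : Equiv.Perm (Fin n) := Equiv.ofBijective π (Finite.injective_iff_bijective.1 hπi)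
      with hσ
    have heq : (τ.restrictScalars k : RatField k n →ₐ[k] RatField k n)
        = (permAct k n σ : RatField k n →ₐ[k] RatField k n) := by
      apply algHom_ext_vr
      intro i
      have h1 : permAct k n σ (vr k n i) = vr k n (σ i) := permAct_vr k n σ i
      have h2 : τ (vr k n i) = vr k n (π i) := hπ i
      calc (τ.restrictScalars k : RatField k n →ₐ[k] RatField k n) (vr k n i)
          = τ (vr k n i) := rfl
        _ = permAct k n σ (vr k n i) := by rw [h1, h2]; rfl
        _ = _ := rfl
    have heq' : ∀ y, τ y = permAct k n σ y := fun y => DFunLike.congr_fun heq y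
    have hτd : τ (vdm k n) = vdm k n := τ.commutes (⟨vdm k n, hd⟩ : K1)
    have hmap := map_vdm k n (τ : RatField k n →+* RatField k n) σ hπ
    have hmap' : (((Equiv.Perm.sign σ : ℤˣ) : ℤ) : RatField k n) * vdm k n = vdm k n :=
      hmap.symm.trans hτd
    have hd0 := vdm_ne_zero k n
    have hsign : Equiv.Perm.sign σ = 1 := by
      rcases Int.units_eq_one_or (Equiv.Perm.sign σ) with h | h
      · exact h
      · exfalso
        rw [h] at hmap'
        have h3 : (2 : RatField k n) * vdm k n = 0 := by
          have h4 : (((-1 : ℤˣ) : ℤ) : RatField k n) = -1 := by simp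
          rw [h4] at hmap'
          linear_combination -hmap'
        rcases mul_eq_zero.1 h3 with h4 | h4
        · exact two_ne_zero h4
        · exact hd0 h4
    rw [heq' f]
    exact hf σ (Equiv.Perm.mem_alternatingGroup.2 hsign)
  obtain ⟨y, hy⟩ := key
  rw [← hy]
  exact y.2

/-- The invariant field of the alternating group is the function field of `disc (f) = y ^ 2`:
`y` is the product of the differences of the variables. -/
theorem altInv_isDiscField [CharZero k] : IsDiscField k (1 : k)
    (fun j : Fin n => (⟨co (vr k n) j, co_mem_altInv k n j⟩ : altInv k n))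
    (⟨vdm k n, vdm_mem_altInv k n⟩ : altInv k n) where
  indep := by
    apply AlgebraicIndependent.of_comp (altInv k n).val
    have h1 : AlgebraicIndependent k (co (vr k n)) := by
      refine algInd_of (vr_isTranscendenceBasis k n).1 fun i => ?_
      have hm : (∏ i, (X - C (vr k n i))).Monic :=
        monic_prod_of_monic _ _ fun i _ => monic_X_sub_C _
      set K1 := IntermediateField.adjoin k (Set.range (co (vr k n))) with hK1
      obtain ⟨p, hp, -, hpm⟩ := Polynomial.lifts_and_degree_eq_and_monic
        (p := ∏ i, (X - C (vr k n i))) (f := algebraMap K1 (RatField k n)) (by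
          rw [Polynomial.lifts_iff_coeff_lifts]
          intro j
          exact ⟨⟨_, coeff_mem k n K1
            (fun j => IntermediateField.subset_adjoin k _ (Set.mem_range_self j)) j⟩, rfl⟩) hm
      have hint : IsIntegral K1 (vr k n i) := by
        refine ⟨p, hpm, ?_⟩
        rw [← eval_map, hp, eval_prod]
        exact Finset.prod_eq_zero (Finset.mem_univ i) (by simp)
      exact hint.isAlgebraic
    exact h1
  eq := by
    rw [map_one, one_mul]
    apply (algebraMap (altInv k n) (RatField k n)).injective
    rw [← discr_monicPoly_map, map_pow]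
    change (monicPoly (co (vr k n))).discr = vdm k n ^ 2
    rw [monicPoly_co, discr_rootPoly]
    rfl
  gen := by
    rw [eq_top_iff]
    intro f _
    set E := IntermediateField.adjoin k (Set.range (pt (fun j : Fin n =>
      (⟨co (vr k n) j, co_mem_altInv k n j⟩ : altInv k n))
      (⟨vdm k n, vdm_mem_altInv k n⟩ : altInv k n))) with hE
    have h1 : (f : RatField k n) ∈ E.map (altInv k n).val := by
      refine altInv_le_of k n _ ?_ ?_ f.2
      · intro j
        exact ⟨_, IntermediateField.subset_adjoin k _ ⟨some j, rfl⟩, rfl⟩
      · exact ⟨_, IntermediateField.subset_adjoin k _ ⟨none, rfl⟩, rfl⟩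
    obtain ⟨g, hg, hgf⟩ := h1
    have h3 : g = f := Subtype.ext hgf
    rwa [← h3]

end DiscRat
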