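import Pool.Agent.H.DiscRat.VStat

/-! Module VExist: the function field exists.

PROOF. Take an algebraic closure of `k(X_1, ..., X_n)`, a square root `y` in it of
`c * disc`, and the subfield generated by the `X_i` and `y`.
-/

open Polynomial

namespace DiscRat

open AnWA

universe u

theorem exists_discField_of {k : Type u} {Ω : Type u} [Field k] [Field Ω] [Algebra k Ω] {n : ℕ}
    (c : k) (a' : Fin n → Ω) (y' : Ω) (hi : AlgebraicIndependent k a')
    (he : algebraMap k Ω c * (monicPoly a').discr = y' ^ 2) :
    ∃ (F : Type u) (_ : Field F) (_ : Algebra k F) (a : Fin n → F) (y : F),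
      IsDiscField k c a y := by
  let E : IntermediateField k Ω := IntermediateField.adjoin k (Set.range (pt a' y'))
  have ha : ∀ i, a' i ∈ E := fun i =>
    IntermediateField.subset_adjoin k _ ⟨some i, rfl⟩
  have hy : y' ∈ E := IntermediateField.subset_adjoin k _ ⟨none, rfl⟩
  refine ⟨E, inferInstance, inferInstance, fun i => ⟨a' i, ha i⟩, ⟨y', hy⟩, ?_, ?_, ?_⟩
  · have h1 : AlgebraicIndependent k (E.val ∘ fun i => (⟨a' i, ha i⟩ : E)) := hi
    exact h1.of_comp E.val
  · apply (algebraMap E Ω).injective
    rw [map_mul, map_pow, ← discr_monicPoly_map]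
    exact he
  · apply IntermediateField.lift_injective E
    rw [IntermediateField.lift_top, IntermediateField.lift_adjoin, ← Set.range_comp]
    have h2 : (Subtype.val ∘ pt (fun i => (⟨a' i, ha i⟩ : E)) ⟨y', hy⟩) = pt a' y' := by
      funext o
      cases o <;> rfl
    rw [h2]

theorem exists_discField (k : Type u) [Field k] (n : ℕ) (c : k) :
    ∃ (F : Type u) (_ : Field F) (_ : Algebra k F) (a : Fin n → F) (y : F),
      IsDiscField k c a y := by
  let Ω : Type u := AlgebraicClosure (FractionRing (MvPolynomial (Fin n) k))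
  let f : MvPolynomial (Fin n) k →ₐ[k] Ω :=
    IsScalarTower.toAlgHom k (MvPolynomial (Fin n) k) Ω
  have hf : Function.Injective f := by
    show Function.Injective (algebraMap (MvPolynomial (Fin n) k) Ω)
    rw [IsScalarTower.algebraMap_eq (MvPolynomial (Fin n) k)
      (FractionRing (MvPolynomial (Fin n) k)) Ω]
    exact (algebraMap (FractionRing (MvPolynomial (Fin n) k)) Ω).injective.comp
      (IsFractionRing.injective _ _)
  obtain ⟨y', hy'⟩ := IsAlgClosed.exists_pow_nat_eq
    (algebraMap k Ω c * (monicPoly (fun i => f (MvPolynomial.X i))).discr) (n := 2) (by norm_num)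
  refine exists_discField_of (Ω := Ω) c (fun i => f (MvPolynomial.X i)) y' ?_ hy'.symm
  exact (MvPolynomial.algebraicIndependent_X (Fin n) k).map' hf

end DiscRat
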