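import Pool.Agent.H.DiscRat.VStat
import Pool.Agent.H.DiscRat.VSplit
import Pool.Agent.H.DiscRat.VKey

/-! Module VVanish: polynomial relations in the function field hold at all points.
-/

open Polynomial

namespace DiscRat

open AnWA

/-- the two components of a relation in the function field vanish -/
theorem split_zero {k F : Type*} [Field k] [CharZero k] [Field F] [Algebra k F] {n : ℕ}
    (hn : 2 ≤ n) {c : k} (hc : c ≠ 0) {a : Fin n → F} {y : F} (ha : AlgebraicIndependent k a)
    (hy : algebraMap k F c * (monicPoly a).discr = y ^ 2) (G0 G1 : MvPolynomial (Fin n) k)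
    (h : MvPolynomial.aeval a G0 + MvPolynomial.aeval a G1 * y = 0) : G0 = 0 ∧ G1 = 0 := by
  have h1 : MvPolynomial.aeval a (G0 ^ 2) =
      MvPolynomial.aeval a (G1 ^ 2 * (MvPolynomial.C c * discMv k n)) := by
    have h2 : MvPolynomial.aeval a G0 = - (MvPolynomial.aeval a G1 * y) :=
      eq_neg_of_add_eq_zero_left h
    rw [map_pow, map_mul, map_pow, map_mul, aeval_discMv, ← MvPolynomial.algebraMap_eq,
      AlgHom.commutes, hy, h2]
    ring
  exact key_sq hn hc G0 G1 (ha h1)

theorem vanish {k F K : Type*} [Field k] [CharZero k] [Field F] [Algebra k F] [Field K]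
    [Algebra k K] {n : ℕ} (hn : 2 ≤ n) {c : k} (hc : c ≠ 0) {a : Fin n → F} {y : F}
    (ha : AlgebraicIndependent k a) (hy : algebraMap k F c * (monicPoly a).discr = y ^ 2)
    (G : MvPolynomial (Option (Fin n)) k) (hG : MvPolynomial.aeval (pt a y) G = 0)
    (p : Fin n → K) (z : K) (hz : algebraMap k K c * (monicPoly p).discr = z ^ 2) :
    MvPolynomial.aeval (pt p z) G = 0 := by
  obtain ⟨H0, H1, R, hH⟩ := exists_split c G
  rw [aeval_split hH a y hy] at hG
  obtain ⟨h0, h1⟩ := split_zero hn hc ha hy H0 H1 hG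
  rw [aeval_split hH p z hz, h0, h1, map_zero, zero_mul, add_zero]

end DiscRat
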