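import Pool.Agent.H.DiscRat.VStat
import Pool.Agent.H.DiscRat.VSplit
import Pool.Agent.H.DiscRat.VKey
import Pool.Agent.H.DiscRat.VVanish

/-! Module VPhi: a polynomial on the space of roots.

PROOF. L has characteristic zero (algebraMap k L injective). γ ≠ 0 as c ≠ 0. Let V = det (vandermonde X) in MvPolynomial (Fin n) L, H' = aeval (pt (co X) (C γ * V)) H in MvPolynomial (Fin n) L (k-algebra map), Φ = V * H'. eval w (MvPolynomial.eval w as a k-algebra map to L) of H' is aeval (pt (co w) (γ * det vandermonde w)) H (co_map, RingHom.map_det, comparison of algebra maps on X) and eval w V = det vandermonde w, nonzero iff w injective (Matrix.det_vandermonde_ne_zero_iff). So it remains to see H' ≠ 0 (V ≠ 0: det_vandermonde_ne_zero_iff and X_injective; domain). By exists_split H = H0 + H1 Y + (Y^2 - c disc) R, and in MvPolynomial (Fin n) L the last factor vanishes at (co X, C γ * V) because aeval (co X) (discMv k n) = V^2 (as in the proof of key_sq in VKey: check after evaluation at every w with aeval_discMv, monicPoly_co, discr_rootPoly); so H' = aeval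 (co X) H0 + aeval (co X) H1 * (C γ * V) (aeval_rename). If H' = 0 then H0 = H1 = 0 by key_zero, hence aeval (pt a y) H = 0 by aeval_split: contradiction.
-/

open Polynomial

namespace DiscRat

open AnWA

/-- evaluation at `w` as a homomorphism of `k`-algebras -/
noncomputable def VPhi_ev (k : Type*) {L : Type*} [Field k] [Field L] [Algebra k L] {n : ℕ}
    (w : Fin n → L) : MvPolynomial (Fin n) L →ₐ[k] L :=
  (MvPolynomial.aeval w : MvPolynomial (Fin n) L →ₐ[L] L).restrictScalars k

theorem VPhi_ev_apply (k : Type*) {L : Type*} [Field k] [Field L] [Algebra k L] {n : ℕ}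
    (w : Fin n → L) (P : MvPolynomial (Fin n) L) : VPhi_ev k w P = MvPolynomial.eval w P := by
  rw [VPhi_ev, AlgHom.restrictScalars_apply, MvPolynomial.aeval_eq_eval]

theorem VPhi_ev_V (k : Type*) {L : Type*} [Field k] [Field L] [Algebra k L] {n : ℕ}
    (w : Fin n → L) : VPhi_ev k w
      (Matrix.vandermonde (fun i => (MvPolynomial.X i : MvPolynomial (Fin n) L))).det
      = (Matrix.vandermonde w).det := by
  rw [AlgHom.map_det]
  congr 1
  ext i j
  rw [AlgHom.mapMatrix_apply, Matrix.map_apply, Matrix.vandermonde_apply,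
    Matrix.vandermonde_apply, map_pow, VPhi_ev_apply, MvPolynomial.eval_X]

theorem VPhi_ev_co (k : Type*) {L : Type*} [Field k] [Field L] [Algebra k L] {n : ℕ}
    (w : Fin n → L) (i : Fin n) : VPhi_ev k w
      (co (fun i => (MvPolynomial.X i : MvPolynomial (Fin n) L)) i) = co w i := by
  have h := co_map (VPhi_ev k w : MvPolynomial (Fin n) L →+* L)
    (fun i => (MvPolynomial.X i : MvPolynomial (Fin n) L))
  have h2 : (fun i => (VPhi_ev k w : MvPolynomial (Fin n) L →+* L)
      ((fun i => (MvPolynomial.X i : MvPolynomial (Fin n) L)) i)) = w := by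
    funext j
    simp only [RingHom.coe_coe, VPhi_ev_apply, MvPolynomial.eval_X]
  rw [h2] at h
  exact (congrFun h i).symm

theorem VPhi_ev_aeval {k L : Type*} [Field k] [Field L] [Algebra k L] {n : ℕ}
    (w : Fin n → L) (G : MvPolynomial (Fin n) k) : VPhi_ev k w
      (MvPolynomial.aeval (co (fun i => (MvPolynomial.X i : MvPolynomial (Fin n) L))) G)
      = MvPolynomial.aeval (co w) G := by
  rw [MvPolynomial.comp_aeval_apply]
  congr 2
  funext i
  exact VPhi_ev_co k w i

/-- the discriminant is the square of the Vandermonde determinant -/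
theorem VPhi_disc (k : Type*) {L : Type*} [Field k] [Field L] [Algebra k L] [CharZero L] (n : ℕ) :
    MvPolynomial.aeval (co (fun i => (MvPolynomial.X i : MvPolynomial (Fin n) L))) (discMv k n)
      = (Matrix.vandermonde (fun i => (MvPolynomial.X i : MvPolynomial (Fin n) L))).det ^ 2 := by
  apply MvPolynomial.funext
  intro w
  rw [← VPhi_ev_apply k, ← VPhi_ev_apply k, VPhi_ev_aeval, map_pow, VPhi_ev_V, aeval_discMv,
    monicPoly_co]
  exact discr_rootPoly w

/-- for `H` nonzero on the variety `c * disc = y ^ 2` there is a nonzero polynomial `Φ` on the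
space of roots such that `H` is nonzero at the points with roots `w`, `Φ w ≠ 0` -/
theorem exists_phi {k F L : Type*} [Field k] [CharZero k] [Field F] [Algebra k F] [Field L]
    [Algebra k L] [IsAlgClosed L] {n : ℕ} (hn : 2 ≤ n) {c : k} (hc : c ≠ 0) {a : Fin n → F}
    {y : F} (ha : AlgebraicIndependent k a)
    (hy : algebraMap k F c * (monicPoly a).discr = y ^ 2) {γ : L}
    (hγ : γ ^ 2 = algebraMap k L c) (H : MvPolynomial (Option (Fin n)) k)
    (hH : MvPolynomial.aeval (pt a y) H ≠ 0) :
    ∃ Φ : MvPolynomial (Fin n) L, Φ ≠ 0 ∧ ∀ w : Fin n → L, MvPolynomial.eval w Φ ≠ 0 →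
      Function.Injective w ∧
        MvPolynomial.aeval (pt (co w) (γ * (Matrix.vandermonde w).det)) H ≠ 0 := by
  haveI : CharZero L := charZero_of_injective_algebraMap (algebraMap k L).injective
  have hγ0 : γ ≠ 0 := by
    rintro rfl
    rw [zero_pow two_ne_zero] at hγ
    exact hc ((map_eq_zero _).mp hγ.symm)
  have hV0 : (Matrix.vandermonde
      (fun i => (MvPolynomial.X i : MvPolynomial (Fin n) L))).det ≠ 0 :=
    Matrix.det_vandermonde_ne_zero_iff.mpr (MvPolynomial.X_injective)
  refine ⟨(Matrix.vandermonde (fun i => (MvPolynomial.X i : MvPolynomial (Fin n) L))).det *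
    MvPolynomial.aeval (pt (co (fun i => (MvPolynomial.X i : MvPolynomial (Fin n) L)))
      (MvPolynomial.C γ * (Matrix.vandermonde
        (fun i => (MvPolynomial.X i : MvPolynomial (Fin n) L))).det)) H,
    mul_ne_zero hV0 ?_, ?_⟩
  · intro h0
    obtain ⟨H0, H1, R, hR⟩ := exists_split c H
    have h1 : MvPolynomial.aeval (co (fun i => (MvPolynomial.X i : MvPolynomial (Fin n) L))) H0
        + MvPolynomial.aeval (co (fun i => (MvPolynomial.X i : MvPolynomial (Fin n) L))) H1
        * (MvPolynomial.C γ *
          (Matrix.vandermonde (fun i => (MvPolynomial.X i : MvPolynomial (Fin n) L))).det)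
        = 0 := by
      rw [← h0]
      conv_rhs => rw [hR]
      have hp : pt (co (fun i => (MvPolynomial.X i : MvPolynomial (Fin n) L)))
          (MvPolynomial.C γ * (Matrix.vandermonde
            (fun i => (MvPolynomial.X i : MvPolynomial (Fin n) L))).det) ∘ some
          = co (fun i => (MvPolynomial.X i : MvPolynomial (Fin n) L)) := rfl
      have hz : pt (co (fun i => (MvPolynomial.X i : MvPolynomial (Fin n) L)))
          (MvPolynomial.C γ * (Matrix.vandermonde
            (fun i => (MvPolynomial.X i : MvPolynomial (Fin n) L))).det) none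
          = MvPolynomial.C γ * (Matrix.vandermonde
            (fun i => (MvPolynomial.X i : MvPolynomial (Fin n) L))).det := rfl
      simp only [map_add, map_mul, map_sub, map_pow, MvPolynomial.aeval_rename,
        MvPolynomial.aeval_X, MvPolynomial.aeval_C, hp, hz, VPhi_disc]
      have hcC : algebraMap k (MvPolynomial (Fin n) L) c = MvPolynomial.C (γ ^ 2) := by
        rw [hγ, IsScalarTower.algebraMap_apply k L (MvPolynomial (Fin n) L),
          MvPolynomial.algebraMap_eq]
      rw [hcC, map_pow]
      ring
    obtain ⟨g0, g1⟩ := key_zero hn hγ0 H0 H1 h1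
    apply hH
    rw [aeval_split hR a y hy, g0, g1, map_zero, zero_mul, add_zero]
  · intro w hw
    rw [map_mul] at hw
    have hw1 := left_ne_zero_of_mul hw
    have hw2 := right_ne_zero_of_mul hw
    rw [← VPhi_ev_apply k, VPhi_ev_V] at hw1
    refine ⟨Matrix.det_vandermonde_ne_zero_iff.mp hw1, ?_⟩
    rw [← VPhi_ev_apply k, MvPolynomial.comp_aeval_apply] at hw2
    have e : (fun i => VPhi_ev k w (pt (co (fun i => (MvPolynomial.X i : MvPolynomial (Fin n) L)))
        (MvPolynomial.C γ * (Matrix.vandermonde
          (fun i => (MvPolynomial.X i : MvPolynomial (Fin n) L))).det) i))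
        = pt (co w) (γ * (Matrix.vandermonde w).det) := by
      funext o
      cases o with
      | none =>
        show VPhi_ev k w (MvPolynomial.C γ * (Matrix.vandermonde
          (fun i => (MvPolynomial.X i : MvPolynomial (Fin n) L))).det) = _
        rw [map_mul, VPhi_ev_V, VPhi_ev_apply, MvPolynomial.eval_C]
        rfl
      | some i => exact VPhi_ev_co k w i
    rw [e] at hw2
    exact hw2

end DiscRat
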