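import Pool.Agent.H.DiscRat.VStat
import Pool.Agent.H.DiscRat.VKey
import Pool.Agent.H.DiscRat.VPhi
import Pool.Agent.H.MP_83e36b_nt.RDefs
import Pool.Agent.H.MP_83e36b_nt.A3a
import Pool.Agent.H.MP_83e36b_nt.A3b
import Pool.Agent.H.MP_83e36b_nt.RNice
import Pool.Agent.H.MP_83e36b_nt.C2a
import Pool.Agent.H.MP_83e36b_nt.A2b

/-! Module VPert: perturbation of a local point.

PROOF. K has characteristic 0 (algebraMap k K). f is separable (discr f ≠ 0 as z ≠ 0; Polynomial.discr/separable lemma, see how other files of Pool/Agent/H/MP_83e36b_nt do it, e.g. grep separable.*discr). L = AlgebraicClosure K, x : Fin n → L injective with f.map = rootPoly x (RNice_enum). V(x) = det vandermonde x ≠ 0. Put γ = z / V(x) in L: γ^2 = c because discr f = V(x)^2 (discr_rootPoly, A3b_discr_map). L is a k-algebra through K. exists_phi gives Φ ≠ 0 in MvPolynomial (Fin n) L. exists_equivariant (C2a, K infinite since char 0) gives ρ ∈ K[X] with Φ(ρ(x_i)) ≠ 0. For ε ∈ K let ρ_ε = X + C ε * (ρ - X) and w_i(ε) = x_i + ε (ρ(x_i)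 - x_i) = aeval (x_i) ρ_ε. The polynomial Ψ = aeval (fun i => C (x_i) + X * C (ρ(x_i) - x_i)) Φ ∈ L[X] has Ψ(ε) = Φ(w(ε)) and Ψ(1) ≠ 0, so Ψ ≠ 0 has finitely many roots. With ‖x0‖ > 1 let ε_m = x0^(-(m+1)): pairwise different, tending to 0, so for m ≥ m0 we have Ψ(ε_m) ≠ 0. Put f'_m = chg n f ρ_{ε_{m+m0}}, z'_m = z * chgDet n f ρ_{ε_{m+m0}}. Over L: f'_m = rootPoly (w(ε)) (chg_map, chg_rootPoly), so its coefficients are co (w(ε)); chgDet = V(w(ε)) / V(x) (A3b_vandermonde, chgDet_map), so z'_m = γ V(w(ε)) in L; exists_phi gives w(ε) injective (z'_m ≠ 0) and H ≠ 0 there (the value of H at the K-point maps to the value at the L-point: MvPolynomial.aeval_algebraMap_apply or similar). The equation: discr_chg. Limits: ρ_ε → X coefficientwise, degrees bounded (≤ max 1 natDegree ρ), chg_tendsto and chgDet_tendsto (A3a), chg n f X = f (chg_X, RNice) and chgDet n f X = 1 (over L from A3b_vandermonde with ρ = X; see whether a lemma exists).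
-/

open Polynomial Filter Topology

namespace DiscRat

open AnWA

/-- sequences of pairwise different scalars tending to zero, avoiding a finite set -/
private theorem eps_seq {K : Type*} [NormedField K] (hK : ∃ x : K, 1 < ‖x‖) (s : Set K)
    (hs : s.Finite) : ∃ e : ℕ → K, (∀ m, e m ∉ s) ∧ Tendsto e atTop (𝓝 0) := by
  obtain ⟨x, hx⟩ := hK
  have hx0 : x ≠ 0 := by
    intro h
    rw [h, norm_zero] at hx
    linarith
  have hinv : ‖x⁻¹‖ < 1 := by
    rw [norm_inv]
    exact inv_lt_one_of_one_lt₀ hx
  have ht : Tendsto (fun m : ℕ => x⁻¹ ^ m) atTop (𝓝 0) :=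
    tendsto_pow_atTop_nhds_zero_of_norm_lt_one hinv
  have hinj : Function.Injective (fun m : ℕ => x⁻¹ ^ m) := by
    intro a b hab
    have h1 : ‖x⁻¹‖ ^ a = ‖x⁻¹‖ ^ b := by
      rw [← norm_pow, ← norm_pow]
      exact congrArg norm hab
    exact (pow_right_injective₀ (norm_pos_iff.mpr (inv_ne_zero hx0)) hinv.ne) h1
  have hfin : (Set.preimage (fun m : ℕ => x⁻¹ ^ m) s).Finite := hs.preimage hinj.injOn
  obtain ⟨M, hM⟩ := hfin.bddAbove
  refine ⟨fun m => x⁻¹ ^ (m + (M + 1)), ?_, ?_⟩
  · intro m hm
    have := hM (show m + (M + 1) ∈ Set.preimage (fun m : ℕ => x⁻¹ ^ m) s from hm)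
    omega
  · exact ht.comp (tendsto_add_atTop_nat (M + 1))

private theorem chgDet_X {K : Type*} [Field K] {n : ℕ} {f : K[X]}
    (hf : f.Monic) (hfn : f.natDegree = n) (hs : f.Separable) : chgDet n f X = 1 := by
  obtain ⟨x, hx, hfx⟩ := RNice_enum hf hfn hs
  apply (algebraMap K (AlgebraicClosure K)).injective
  rw [chgDet_map, hfx, Polynomial.map_X, map_one]
  have h1 := A3b_vandermonde x (X : (AlgebraicClosure K)[X])
  simp only [eval_X] at h1
  have h2 : (Matrix.vandermonde x).det ≠ 0 := Matrix.det_vandermonde_ne_zero_iff.2 hx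
  have h3 : (Matrix.vandermonde x).det * chgDet n (rootPoly x) X
      = (Matrix.vandermonde x).det * 1 := by rw [mul_one]; exact h1.symm
  exact mul_left_cancel₀ h2 h3

private theorem coeff_rootPoly {L : Type*} [Field L] {n : ℕ} (w : Fin n → L) (i : Fin n) :
    co w i = (rootPoly w).coeff i := rfl

/-- every local point is a limit of points where `H` does not vanish -/
theorem exists_pert {k F K : Type*} [Field k] [CharZero k] [Field F] [Algebra k F]
    [NormedField K] [Algebra k K] (hK : ∃ x : K, 1 < ‖x‖) {n : ℕ} (hn : 2 ≤ n) {c : k}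
    (hc : c ≠ 0) {a : Fin n → F} {y : F} (ha : AlgebraicIndependent k a)
    (hy : algebraMap k F c * (monicPoly a).discr = y ^ 2)
    (H : MvPolynomial (Option (Fin n)) k) (hH : MvPolynomial.aeval (pt a y) H ≠ 0)
    {f : K[X]} {z : K} (hf : f.Monic) (hfn : f.natDegree = n)
    (hz : algebraMap k K c * f.discr = z ^ 2) (hz0 : z ≠ 0) :
    ∃ (f' : ℕ → K[X]) (z' : ℕ → K),
      (∀ m, (f' m).Monic ∧ (f' m).natDegree = n ∧ algebraMap k K c * (f' m).discr = z' m ^ 2 ∧
        z' m ≠ 0 ∧ MvPolynomial.aeval (pt (fun i : Fin n => (f' m).coeff i) (z' m)) H ≠ 0) ∧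
      PolyTendsto atTop f' f ∧ Tendsto z' atTop (𝓝 z) := by
  classical
  have hcK : CharZero K := (RingHom.charZero_iff (algebraMap k K).injective).mp inferInstance
  let L := AlgebraicClosure K
  let φ : K →+* L := algebraMap K L
  have hck : algebraMap k K c ≠ 0 := by
    rw [Ne, map_eq_zero]
    exact hc
  have hdisc : f.discr ≠ 0 := by
    intro h
    rw [h, mul_zero] at hz
    exact hz0 (pow_eq_zero_iff (two_ne_zero)|>.mp hz.symm)
  have hsep : f.Separable := (discr_ne_zero_iff_separable hf).1 hdisc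
  obtain ⟨x, hx, hfx⟩ := RNice_enum hf hfn hsep
  have hV : (Matrix.vandermonde x).det ≠ 0 := Matrix.det_vandermonde_ne_zero_iff.2 hx
  have hkL : ∀ a : k, algebraMap k L a = φ (algebraMap k K a) := fun a =>
    IsScalarTower.algebraMap_apply k K (AlgebraicClosure K) a
  let γ : L := φ z / (Matrix.vandermonde x).det
  have hγ : γ ^ 2 = algebraMap k L c := by
    have h1 : φ f.discr = (Matrix.vandermonde x).det ^ 2 := by
      rw [A3b_discr_map φ hf, hfx, discr_rootPoly]
    have h2 : φ z ^ 2 = φ (algebraMap k K c) * (Matrix.vandermonde x).det ^ 2 := by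
      rw [← h1, ← map_pow, ← hz, map_mul]
    rw [hkL]
    change (φ z / (Matrix.vandermonde x).det) ^ 2 = φ (algebraMap k K c)
    rw [div_pow, h2, mul_div_assoc, div_self (pow_ne_zero 2 hV), mul_one]
  obtain ⟨Φ, hΦ0, hΦ⟩ := exists_phi (L := L) hn hc ha hy hγ H hH
  obtain ⟨ρ, hρ⟩ := exists_equivariant (F := K) x hx Φ hΦ0
  -- the line through `x` and `ρ(x)`
  let w : K → Fin n → L := fun ε i => x i + φ ε * (aeval (x i) ρ - x i)
  let r : K → K[X] := fun ε => X + C ε * (ρ - X)
  have hrw : ∀ ε i, ((r ε).map φ).eval (x i) = w ε i := by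
    intro ε i
    simp only [r, w, Polynomial.map_add, Polynomial.map_mul, Polynomial.map_sub, Polynomial.map_X,
      Polynomial.map_C, eval_add, eval_mul, eval_sub, eval_X, eval_C]
    rw [eval_map, aeval_def]
  let Ψ : L[X] := MvPolynomial.aeval (fun i => C (x i) + X * C (aeval (x i) ρ - x i)) Φ
  have hΨ : ∀ t : L, Ψ.eval t =
      MvPolynomial.eval (fun i => x i + t * (aeval (x i) ρ - x i)) Φ := by
    intro t
    have h1 : ((Polynomial.aeval t).comp (MvPolynomial.aeval
        (fun i => (C (x i) + X * C (aeval (x i) ρ - x i) : L[X]))) : MvPolynomial (Fin n) L →ₐ[L] L)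
        = MvPolynomial.aeval (fun i => x i + t * (aeval (x i) ρ - x i)) := by
      apply MvPolynomial.algHom_ext
      intro i
      simp
    have h2 := DFunLike.congr_fun h1 Φ
    rw [AlgHom.comp_apply, Polynomial.coe_aeval_eq_eval] at h2
    change Polynomial.eval t (MvPolynomial.aeval _ Φ) = _
    rw [h2, ← MvPolynomial.coe_aeval_eq_eval]
    rfl
  have hΨ0 : Ψ ≠ 0 := by
    intro h0
    apply hρ
    have h1 := hΨ 1
    rw [h0, eval_zero] at h1
    rw [h1]
    congr 2
    funext i
    ring
  obtain ⟨e, he, het⟩ := eps_seq hK (Set.preimage φ (Ψ.roots.toFinset : Set L))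
    (Set.Finite.preimage φ.injective.injOn (Finset.finite_toSet _))
  have hnv : ∀ m, MvPolynomial.eval (w (e m)) Φ ≠ 0 := by
    intro m h0
    apply he m
    rw [Set.mem_preimage, Finset.mem_coe, Multiset.mem_toFinset, mem_roots hΨ0]
    change Ψ.eval (φ (e m)) = 0
    rw [hΨ]
    exact h0
  have hmap : ∀ ε, (chg n f (r ε)).map φ = rootPoly (w ε) := by
    intro ε
    rw [chg_map, hfx, chg_rootPoly x hx]
    congr 1
    funext i
    exact hrw ε i
  have hdet : ∀ ε, φ (z * chgDet n f (r ε)) = γ * (Matrix.vandermonde (w ε)).det := by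
    intro ε
    have h1 := A3b_vandermonde x ((r ε).map φ)
    have h2 : (fun i => ((r ε).map φ).eval (x i)) = w ε := by
      funext i
      exact hrw ε i
    rw [h2] at h1
    rw [h1, map_mul, chgDet_map, hfx]
    change _ = φ z / (Matrix.vandermonde x).det * ((Matrix.vandermonde x).det * _)
    rw [← mul_assoc, div_mul_cancel₀ _ hV]
  have hrt : PolyTendsto atTop (fun m => r (e m)) X := by
    have h1 : PolyTendsto atTop (fun m => C (e m) * (ρ - X)) (C 0 * (ρ - X)) :=
      (polyTendsto_C het).mul' (polyTendsto_const _)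
    intro j
    have h2 := (h1 j).const_add ((X : K[X]).coeff j)
    simp only [C_0, zero_mul, coeff_zero, add_zero] at h2
    simpa only [r, coeff_add] using h2
  have hrd : ∀ ε, (r ε).natDegree ≤ max 1 (ρ.natDegree) := by
    intro ε
    refine (natDegree_add_le _ _).trans ?_
    refine max_le ?_ ?_
    · rw [natDegree_X]
      exact le_max_left _ _
    · refine (natDegree_C_mul_le _ _).trans ?_
      refine (natDegree_sub_le _ _).trans ?_
      rw [natDegree_X]
      exact max_le (le_max_right _ _) (le_max_left _ _)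
  have hX1 : (X : K[X]).natDegree ≤ max 1 (ρ.natDegree) := by
    rw [natDegree_X]
    exact le_max_left _ _
  refine ⟨fun m => chg n f (r (e m)), fun m => z * chgDet n f (r (e m)), ?_, ?_, ?_⟩
  · intro m
    obtain ⟨hwi, hwH⟩ := hΦ _ (hnv m)
    refine ⟨(chg_monic n f _).1, (chg_monic n f _).2, ?_, ?_, ?_⟩
    · rw [discr_chg hf hfn hsep, ← mul_assoc, hz, mul_pow]
    · intro h0
      have h1 := hdet (e m)
      have h0' : z * chgDet n f (r (e m)) = 0 := h0
      rw [h0', map_zero] at h1
      have h2 : (Matrix.vandermonde (w (e m))).det ≠ 0 := Matrix.det_vandermonde_ne_zero_iff.2 hwi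
      have h3 : γ ≠ 0 := by
        intro h
        rw [h, zero_pow two_ne_zero, hkL] at hγ
        exact hck (by rw [← map_eq_zero φ]; exact hγ.symm)
      exact mul_ne_zero h3 h2 h1.symm
    · intro h0
      apply hwH
      have h1 : pt (co (w (e m))) (γ * (Matrix.vandermonde (w (e m))).det)
          = fun o => φ (pt (fun i : Fin n => (chg n f (r (e m))).coeff i)
            (z * chgDet n f (r (e m))) o) := by
        funext o
        cases o with
        | none =>
          change γ * (Matrix.vandermonde (w (e m))).det = φ (z * chgDet n f (r (e m)))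
          rw [hdet]
        | some i =>
          change co (w (e m)) i = φ ((chg n f (r (e m))).coeff i)
          rw [coeff_rootPoly, ← hmap, coeff_map]
      rw [h1]
      have h2 := MvPolynomial.aeval_algebraMap_apply (A := K) (B := L)
        (pt (fun i : Fin n => (chg n f (r (e m))).coeff i) (z * chgDet n f (r (e m)))) H
      change MvPolynomial.aeval (algebraMap K L ∘ _) H = 0
      rw [h2, h0, map_zero]
  · have h1 := chg_tendsto n (max 1 ρ.natDegree) (polyTendsto_const (l := atTop) f) hrt
      (fun m => hrd (e m)) hX1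
    rw [chg_X hf hfn hsep] at h1
    exact h1
  · have h1 := chgDet_tendsto n (max 1 ρ.natDegree) (polyTendsto_const (l := atTop) f) hrt
      (fun m => hrd (e m)) hX1
    rw [chgDet_X hf hfn hsep] at h1
    have h2 := h1.const_mul z
    rw [mul_one] at h2
    exact h2

end DiscRat
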