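import Mathlib
import Pool.Agent.H.MP_ffe2f0_al.NDefs
import Pool.Agent.H.MP_ffe2f0_al.NSym
import Pool.Agent.H.MP_ffe2f0_al.NGeneric
import Pool.Agent.H.MP_ffe2f0_al.NDelta
import Pool.Agent.H.MP_ffe2f0_al.NGalois

/-! Module VGen: the Krylov matrix of algebraically independent elements.

PROOF. x is injective (AlgebraicIndependent.injective, nontrivial). The k-algebra map MvPolynomial (Fin n) k → Ω, X i ↦ x i is injective, so it extends to a ring homomorphism φ : RatField k n →+* Ω (IsFractionRing.lift / IsLocalization.lift) with φ (vr k n i) = x i, that is φ ∘ vr k n = x. kry_map, hnk_map, dlt_map, cm_map (NSym) and kry_vr_ne_zero (NGeneric), hnk_vr_ne_zero, dlt_vr_ne_zero, dlt_vr_sq (NGalois) give the claims (charpoly commutes with map: Matrix.charpoly_map).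
-/

open Polynomial Matrix

namespace DiscRat

open NoetherAn in
/-- algebraically independent elements are generic for the Calogero–Moser matrix -/
theorem kry_ne_zero_of_algInd {k Ω : Type*} [Field k] [CharZero k] [Field Ω] [Algebra k Ω]
    {n : ℕ} {x : Fin n → Ω} (hx : AlgebraicIndependent k x) :
    Function.Injective x ∧ (kry x).det ≠ 0 ∧ hnk x ≠ 0 ∧ dlt x ≠ 0 ∧
      dlt x ^ 2 = (cm x).charpoly.coeff (n % 2) := by
  have hinj : Function.Injective (MvPolynomial.aeval (R := k) x) := hx
  have hx1 : Function.Injective x := hx.injective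
  set φ0 : MvPolynomial (Fin n) k →+* Ω :=
    (MvPolynomial.aeval x : MvPolynomial (Fin n) k →ₐ[k] Ω).toRingHom with hφ0
  have hφ0i : Function.Injective φ0 := hinj
  set φ : RatField k n →+* Ω := IsFractionRing.lift (A := MvPolynomial (Fin n) k)
    (K := RatField k n) hφ0i with hφ
  have hφx : φ ∘ vr k n = x := by
    funext i
    show φ (vr k n i) = x i
    unfold vr
    rw [hφ, IsFractionRing.lift_algebraMap]
    show MvPolynomial.aeval x (MvPolynomial.X i) = x i
    rw [MvPolynomial.aeval_X]
  have hφi : Function.Injective φ := φ.injective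
  have hne : ∀ a : RatField k n, a ≠ 0 → φ a ≠ 0 := fun a ha h => ha (hφi (by rw [h, map_zero]))
  refine ⟨hx1, ?_, ?_, ?_, ?_⟩
  · rw [← hφx, kry_map]
    have h1 : ((kry (vr k n)).map φ).det = φ (kry (vr k n)).det :=
      (RingHom.map_det φ (kry (vr k n))).symm
    rw [h1]
    exact hne _ (kry_vr_ne_zero k n)
  · rw [← hφx, hnk_map]
    exact hne _ (hnk_vr_ne_zero k n)
  · rw [← hφx, dlt_map]
    exact hne _ (dlt_vr_ne_zero k n)
  · rw [← hφx, dlt_map, charpoly_map', Polynomial.coeff_map, ← map_pow, dlt_vr_sq]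

end DiscRat
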