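import Pool.Agent.H.DiscRat.VStat
import Pool.Agent.H.DiscRat.VKey
import Pool.Agent.H.DiscRat.VInd
import Pool.Agent.H.DiscRat.VGen
import Pool.Agent.H.MP_83e36b_nt.A3b
import Pool.Agent.H.MP_ffe2f0_al.NMem
import Pool.Agent.H.MP_ffe2f0_al.NMain
import Pool.Agent.H.MP_ffe2f0_al.NSym
import Pool.Agent.H.MP_ffe2f0_al.NComm

/-! Module VRat: the function field of c disc(f) = y^2 is purely transcendental.

PROOF. Let Ω = AlgebraicClosure F, char 0. Write a, y also for their images in Ω. x : Fin n → Ω with monicPoly a = rootPoly x = ∏ (X - C (x i)). x is algebraically independent over k: algInd_of (VInd): a i ∈ k(x) (coefficients of ∏ (X - x i)). So kry_ne_zero_of_algInd (VGen) applies to x: x injective, kry ≠ 0, hnk ≠ 0, dlt ≠ 0, dlt^2 = charpoly coefficient n % 2.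
Let V = det (vandermonde x), V^2 = disc, w = y * (dlt x / V). m = n / 2 ≥ 1. Define t' : Fin n → Ω like gens x (NDefs) but with t' 0 = w: t' i = w if i = 0, (cm x).charpoly.coeff (n % 2 + 2 i) if 0 < i < n / 2, cmom x (2 (i - n / 2)) otherwise. Let K1 = adjoin k (range t') ≤ Ω, F' = the image of F in Ω.
(1) all coefficients of ∏ (X - C (x i)), lie in K1: the charpoly coefficients of cm x: odd ones vanish (charpoly_coeff_odd in NComm), coefficient n % 2 is dlt^2 = w^2 V^2 / y^2 = w^2 / c ∈ K1 (c * V^2 = y^2), the others are generators or 1 or 0 (degree n monic); the cmom x (2l), 2l < n are generators; mom_mem, cmom_mem (NMem), coeff_prod_mem (NMain) with K = K1.toSubfield.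
(2) y ∈ K1: Ω is algebraic over K1. θ = V / dlt x is fixed by every τ : Ω ≃ₐ[K1] Ω: by (1) and exists_perm (VInd) τ ∘ x = x ∘ π, so τ V = sign π V and τ (dlt x) = dlt (τ ∘ x) = dlt (x ∘ π) = sign π dlt x. By mem_of_fixed θ ∈ K1 and y = w θ ∈ K1.
(3) t' j ∈ F' for all j: Ω is algebraic over F'; use mem_of_fixed with K = F'.
So F' = k(a, y) ≤ K1 ≤ F', i.e. K1 = F'. Pull t' back to t : Fin n → F.
-/

open Polynomial

namespace DiscRat

open AnWA NoetherAn

/-- a polynomial of degree `n` over an algebraically closed field is `∏ (X - x i)` -/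
theorem VRat_roots {L : Type*} [Field L] [IsAlgClosed L] {n : ℕ} {f : L[X]} (hf : f.Monic)
    (hn : f.natDegree = n) : ∃ x : Fin n → L, f = rootPoly x := by
  have hsplit : f.Splits := IsAlgClosed.splits f
  have hcard : f.roots.card = n := by rw [← hsplit.natDegree_eq_card_roots, hn]
  obtain ⟨l, hl⟩ := Quot.exists_rep f.roots
  change (l : Multiset L) = f.roots at hl
  rw [← hl, Multiset.coe_card] at hcard
  subst hcard
  refine ⟨fun i => l.get i, ?_⟩
  have h3 := hsplit.eq_prod_roots_of_monic hf
  conv_lhs => rw [h3]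
  rw [rootPoly, ← hl]
  have h4 : (l : Multiset L) = Finset.univ.val.map (fun i => l.get i) := by
    rw [Fin.univ_val_map, List.ofFn_get]
  rw [h4, Multiset.map_map]
  rfl

/-- `monicPoly a` is monic of degree `n` -/
theorem VRat_monic {R : Type*} [CommRing R] [Nontrivial R] {n : ℕ} (a : Fin n → R) :
    (monicPoly a).Monic ∧ (monicPoly a).natDegree = n := by
  have hlt : (∑ i, C (a i) * X ^ (i : ℕ) : R[X]).degree < (n : ℕ) := degree_sum_fin_lt a
  refine ⟨monic_X_pow_add hlt, ?_⟩
  apply natDegree_eq_of_degree_eq_some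
  unfold monicPoly
  rw [degree_add_eq_left_of_degree_lt, degree_X_pow]
  rw [degree_X_pow]
  exact hlt

theorem VRat_monicPoly_coeff {R : Type*} [CommRing R] {n : ℕ} (a : Fin n → R) (i : Fin n) :
    (monicPoly a).coeff i = a i := by
  unfold monicPoly
  rw [coeff_add, coeff_X_pow, if_neg (by omega), zero_add, finsetSum_coeff]
  rw [Finset.sum_eq_single i]
  · rw [coeff_C_mul, coeff_X_pow, if_pos rfl, mul_one]
  · intro j _ hj
    rw [coeff_C_mul, coeff_X_pow, if_neg (fun h => hj (Fin.ext h.symm)), mul_zero]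
  · intro h
    exact absurd (Finset.mem_univ _) h

/-- the coefficients of `monicPoly a` lie in every field containing the `a i` -/
theorem VRat_coeff_monicPoly {L : Type*} [Field L] {n : ℕ} (a : Fin n → L) (K : Subfield L)
    (h : ∀ i, a i ∈ K) (j : ℕ) : (monicPoly a).coeff j ∈ K := by
  have h1 := monicPoly_map (algebraMap K L) (fun i => (⟨a i, h i⟩ : K))
  have h2 : (fun i => algebraMap K L (⟨a i, h i⟩ : K)) = a := rfl
  rw [h2] at h1
  rw [h1, coeff_map]
  exact SetLike.coe_mem _

/-- the coefficients of `∏ (X - x i)` lie in every field containing the `x i` -/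
theorem VRat_coeff_rootPoly {L : Type*} [Field L] {n : ℕ} (x : Fin n → L) (K : Subfield L)
    (h : ∀ i, x i ∈ K) (j : ℕ) : (rootPoly x).coeff j ∈ K := by
  have h1 : rootPoly x = (rootPoly (fun i => (⟨x i, h i⟩ : K))).map (algebraMap K L) := by
    rw [rootPoly, rootPoly, Polynomial.map_prod]
    refine Finset.prod_congr rfl fun i _ => ?_
    rw [Polynomial.map_sub, map_X, map_C]
    rfl
  rw [h1, coeff_map]
  exact SetLike.coe_mem _

/-- a bigger intermediate field -/
theorem VRat_alg_of_le {k Ω : Type*} [Field k] [Field Ω] [Algebra k Ω]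
    (A B : IntermediateField k Ω) (h : A ≤ B) [Algebra.IsAlgebraic A Ω] :
    Algebra.IsAlgebraic B Ω := by
  let _ : Algebra A B := (IntermediateField.inclusion h).toRingHom.toAlgebra
  have _ : IsScalarTower A B Ω := IsScalarTower.of_algebraMap_eq (fun x => rfl)
  exact Algebra.IsAlgebraic.tower_top (K := A) B

/-- if all elements of `F'` are algebraic over `K1` and `Ω` is algebraic over `F'` then `Ω` is
algebraic over `K1` -/
theorem VRat_alg_trans {k Ω : Type*} [Field k] [Field Ω] [Algebra k Ω]
    (K1 F' : IntermediateField k Ω) [Algebra.IsAlgebraic F' Ω]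
    (h : ∀ z ∈ F', IsAlgebraic K1 z) : Algebra.IsAlgebraic K1 Ω := by
  have hle : F' ≤ (algebraicClosure K1 Ω).restrictScalars k := by
    intro z hz
    rw [IntermediateField.mem_restrictScalars, mem_algebraicClosure_iff]
    exact h z hz
  have h1 : Algebra.IsAlgebraic ((algebraicClosure K1 Ω).restrictScalars k) Ω :=
    VRat_alg_of_le _ _ hle
  have h2 : Algebra.IsAlgebraic (algebraicClosure K1 Ω) Ω := h1
  exact Algebra.IsAlgebraic.trans K1 (algebraicClosure K1 Ω) Ω

/-- the Vandermonde determinant under ring homomorphisms -/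
theorem VRat_vdm_map {L L' : Type*} [Field L] [Field L'] (φ : L →+* L') {n : ℕ}
    (x : Fin n → L) : (Matrix.vandermonde (φ ∘ x)).det = φ (Matrix.vandermonde x).det := by
  rw [RingHom.map_det]
  congr 1
  ext i j
  simp [Matrix.vandermonde_apply]

/-- the Vandermonde determinant under permutations -/
theorem VRat_vdm_comp {L : Type*} [Field L] {n : ℕ} (x : Fin n → L)
    (σ : Equiv.Perm (Fin n)) : (Matrix.vandermonde (x ∘ σ)).det
      = ((Equiv.Perm.sign σ : ℤˣ) : ℤ) * (Matrix.vandermonde x).det := by
  have h : Matrix.vandermonde (x ∘ σ) = (Matrix.vandermonde x).submatrix σ id := by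
    ext i j
    rfl
  rw [h, Matrix.det_permute]

/-- `V / dlt` is fixed -/
theorem VRat_fixed {L : Type*} [Field L] {n : ℕ} {x : Fin n → L} (τ : L →+* L)
    {π : Equiv.Perm (Fin n)} (h : (τ : L → L) ∘ x = x ∘ π) :
    τ ((Matrix.vandermonde x).det / dlt x) = (Matrix.vandermonde x).det / dlt x := by
  rw [map_div₀, ← VRat_vdm_map, ← dlt_map, h, VRat_vdm_comp, dlt_comp]
  have hs : (((Equiv.Perm.sign π : ℤˣ) : ℤ) : L) ≠ 0 := by
    rcases Int.units_eq_one_or (Equiv.Perm.sign π) with h | h <;> rw [h] <;> simp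
  exact mul_div_mul_left _ _ hs

/-- the generators -/
noncomputable def tgen {L : Type*} [Field L] {n : ℕ} (x : Fin n → L) (w : L) : Fin n → L :=
  fun i => if (i : ℕ) = 0 then w
    else if (i : ℕ) < n / 2 then (cm x).charpoly.coeff (n % 2 + 2 * (i : ℕ))
    else cmom x (2 * ((i : ℕ) - n / 2))

theorem VRat_w_mem {k Ω : Type*} [Field k] [Field Ω] [Algebra k Ω] {n : ℕ} (hn : 2 ≤ n)
    (x : Fin n → Ω) (w : Ω) :
    w ∈ IntermediateField.adjoin k (Set.range (tgen x w)) := by
  have h : tgen x w ⟨0, by omega⟩ = w := by simp [tgen]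
  have h2 : tgen x w ⟨0, by omega⟩ ∈ IntermediateField.adjoin k (Set.range (tgen x w)) :=
    IntermediateField.subset_adjoin _ _ (Set.mem_range_self _)
  rwa [h] at h2

/-- the coefficients of the characteristic polynomial lie in the field of the generators -/
theorem VRat_charpoly_mem {k Ω : Type*} [Field k] [Field Ω] [Algebra k Ω] [CharZero Ω] {n : ℕ}
    (hn : 2 ≤ n) (x : Fin n → Ω) (w : Ω)
    (h0 : (cm x).charpoly.coeff (n % 2) ∈ IntermediateField.adjoin k (Set.range (tgen x w)))
    (j : ℕ) :
    (cm x).charpoly.coeff j ∈ IntermediateField.adjoin k (Set.range (tgen x w)) := by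
  set K1 := IntermediateField.adjoin k (Set.range (tgen x w)) with hK1
  have hdeg : (cm x).charpoly.natDegree = n := by
    rw [Matrix.charpoly_natDegree_eq_dim]; simp
  rcases lt_trichotomy j n with hj | hj | hj
  · by_cases hodd : Odd (n + j)
    · rw [charpoly_coeff_odd _ hodd]; exact K1.zero_mem
    · rw [Nat.not_odd_iff_even] at hodd
      have hmod : j % 2 = n % 2 := by
        have := Nat.even_iff.1 hodd
        omega
      have hj2 : j = n % 2 + 2 * (j / 2) := by omega
      rcases Nat.eq_zero_or_pos (j / 2) with h1 | h1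
      · have : j = n % 2 := by omega
        rw [this]
        exact h0
      · have hlt : j / 2 < n / 2 := by omega
        have hg : tgen x w ⟨j / 2, by omega⟩ = (cm x).charpoly.coeff j := by
          simp only [tgen]
          rw [if_neg (by omega), if_pos hlt, ← hj2]
        rw [← hg]
        exact IntermediateField.subset_adjoin _ _ (Set.mem_range_self _)
  · have hm := Matrix.charpoly_monic (cm x)
    rw [Polynomial.Monic, Polynomial.leadingCoeff, hdeg] at hm
    rw [hj, hm]
    exact K1.one_mem
  · rw [Polynomial.coeff_eq_zero_of_natDegree_lt (by rw [hdeg]; exact hj)]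
    exact K1.zero_mem

theorem VRat_cmom_mem {k Ω : Type*} [Field k] [Field Ω] [Algebra k Ω] {n : ℕ}
    (hn : 2 ≤ n) (x : Fin n → Ω) (w : Ω) (l : ℕ) (hl : 2 * l < n) :
    cmom x (2 * l) ∈ IntermediateField.adjoin k (Set.range (tgen x w)) := by
  have hg : tgen x w ⟨n / 2 + l, by omega⟩ = cmom x (2 * l) := by
    simp only [tgen]
    rw [if_neg (by omega), if_neg (by omega)]
    congr 2
    omega
  rw [← hg]
  exact IntermediateField.subset_adjoin _ _ (Set.mem_range_self _)

/-- all coefficients of `∏ (X - x i)` lie in the field of the generators -/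
theorem VRat_coeff_mem {k Ω : Type*} [Field k] [Field Ω] [Algebra k Ω] [CharZero Ω] {n : ℕ}
    (hn : 2 ≤ n) {x : Fin n → Ω} (hx : Function.Injective x) (hkry : (kry x).det ≠ 0) (w : Ω)
    (h0 : (cm x).charpoly.coeff (n % 2) ∈ IntermediateField.adjoin k (Set.range (tgen x w)))
    (j : ℕ) :
    (∏ i, (X - C (x i))).coeff j ∈ IntermediateField.adjoin k (Set.range (tgen x w)) := by
  set K1 := IntermediateField.adjoin k (Set.range (tgen x w)) with hK1
  have hK : ∀ j, (cm x).charpoly.coeff j ∈ K1.toSubfield := fun j =>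
    VRat_charpoly_mem hn x w h0 j
  have hc : ∀ l, 2 * l < n → cmom x (2 * l) ∈ K1.toSubfield := fun l hl =>
    VRat_cmom_mem hn x w l hl
  exact coeff_prod_mem hx hkry K1.toSubfield (mom_mem hx _ hK)
    (cmom_mem hx _ hK hc) j

/-- the statement inside an algebraic closure -/
theorem VRat_core {k Ω : Type*} [Field k] [CharZero k] [Field Ω] [Algebra k Ω] [CharZero Ω]
    [IsAlgClosed Ω] {n : ℕ} (hn : 2 ≤ n) {c : k} (hc : c ≠ 0) {a : Fin n → Ω} {y : Ω}
    (ha : AlgebraicIndependent k a)
    (hy : algebraMap k Ω c * (monicPoly a).discr = y ^ 2)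
    [Algebra.IsAlgebraic (IntermediateField.adjoin k (Set.range (pt a y))) Ω] :
    ∃ t : Fin n → Ω, AlgebraicIndependent k t ∧
      IntermediateField.adjoin k (Set.range t)
        = IntermediateField.adjoin k (Set.range (pt a y)) := by
  obtain ⟨x, hax⟩ := VRat_roots (VRat_monic a).1 (VRat_monic a).2
  have hai : ∀ i, a i = (rootPoly x).coeff i := fun i => by
    rw [← hax, VRat_monicPoly_coeff]
  -- `x` is algebraically independent
  have hxi : AlgebraicIndependent k x := by
    refine algInd_of ha fun i => ?_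
    have h1 : a i ∈ IntermediateField.adjoin k (Set.range x) := by
      rw [hai i]
      exact VRat_coeff_rootPoly x (IntermediateField.adjoin k (Set.range x)).toSubfield
        (fun i => IntermediateField.subset_adjoin _ _ (Set.mem_range_self i)) i
    exact isAlgebraic_algebraMap (⟨a i, h1⟩ : IntermediateField.adjoin k (Set.range x))
  obtain ⟨hinj, hkry, hhnk, hdlt, hsq⟩ := kry_ne_zero_of_algInd hxi
  set V := (Matrix.vandermonde x).det with hV
  have hV0 : V ≠ 0 := Matrix.det_vandermonde_ne_zero_iff.2 hinj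
  have hdisc : (monicPoly a).discr = V ^ 2 := by rw [hax, discr_rootPoly]
  have hc' : algebraMap k Ω c ≠ 0 := by
    rw [Ne, map_eq_zero]; exact hc
  rw [hdisc] at hy
  have hy0 : y ≠ 0 := by
    rintro rfl
    have : algebraMap k Ω c * V ^ 2 ≠ 0 := mul_ne_zero hc' (pow_ne_zero _ hV0)
    exact this (by rw [hy]; simp)
  set F' := IntermediateField.adjoin k (Set.range (pt a y)) with hF'
  set w : Ω := y * (dlt x / V) with hw
  set K1 := IntermediateField.adjoin k (Set.range (tgen x w)) with hK1
  have hwK : w ∈ K1 := VRat_w_mem hn x w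
  -- the last coefficient
  have h0 : (cm x).charpoly.coeff (n % 2) ∈ K1 := by
    have h1 : (cm x).charpoly.coeff (n % 2) = algebraMap k Ω c⁻¹ * w ^ 2 := by
      rw [← hsq, map_inv₀, hw, mul_pow, ← hy]
      field_simp
    rw [h1]
    exact K1.mul_mem (K1.algebraMap_mem _) (pow_mem hwK 2)
  have hcoK : ∀ j, (∏ i, (X - C (x i))).coeff j ∈ K1 := VRat_coeff_mem hn hinj hkry w h0
  have haK : ∀ i, a i ∈ K1 := fun i => by
    rw [hai i]; exact hcoK i
  -- `Ω` is algebraic over `K1`
  have hysq : y ^ 2 ∈ K1 := by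
    rw [← hy, ← hdisc]
    have h1 : (monicPoly a).discr ∈ K1 := by
      have h2 := discr_monicPoly_map (algebraMap K1 Ω) (fun i => (⟨a i, haK i⟩ : K1))
      have h3 : (fun i => algebraMap K1 Ω (⟨a i, haK i⟩ : K1)) = a := rfl
      rw [h3] at h2
      rw [h2]
      exact SetLike.coe_mem _
    exact K1.mul_mem (K1.algebraMap_mem _) h1
  have halg : Algebra.IsAlgebraic K1 Ω := by
    refine VRat_alg_trans K1 F' ?_
    intro z hz
    have hle : F' ≤ (algebraicClosure K1 Ω).restrictScalars k := by
      rw [hF', IntermediateField.adjoin_le_iff]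
      rintro _ ⟨o, rfl⟩
      rw [SetLike.mem_coe, IntermediateField.mem_restrictScalars, mem_algebraicClosure_iff]
      cases o with
      | none =>
        have h1 : IsAlgebraic K1 (y ^ 2) :=
          isAlgebraic_algebraMap (⟨y ^ 2, hysq⟩ : K1)
        exact h1.of_pow (by norm_num)
      | some i => exact isAlgebraic_algebraMap (⟨a i, haK i⟩ : K1)
    have h1 := hle hz
    rwa [IntermediateField.mem_restrictScalars, mem_algebraicClosure_iff] at h1
  -- `y` lies in `K1`
  have hθK : V / dlt x ∈ K1 := by
    refine mem_of_fixed K1 _ fun τ => ?_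
    obtain ⟨π, hπ⟩ := exists_perm K1 x hinj hcoK τ
    exact VRat_fixed (τ : Ω →+* Ω) hπ
  have hyK : y ∈ K1 := by
    have h1 : y = w * (V / dlt x) := by
      rw [hw]
      field_simp
    rw [h1]
    exact K1.mul_mem hwK hθK
  -- the generators lie in `F'`
  have haF : ∀ i, a i ∈ F' := fun i =>
    IntermediateField.subset_adjoin _ _ ⟨some i, rfl⟩
  have hyF : y ∈ F' := IntermediateField.subset_adjoin _ _ ⟨none, rfl⟩
  have hcoF : ∀ j, (∏ i, (X - C (x i))).coeff j ∈ F' := fun j => by
    have h1 : (∏ i, (X - C (x i))) = monicPoly a := hax.symm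
    rw [h1]
    exact VRat_coeff_monicPoly a F'.toSubfield haF j
  have htF : ∀ i, tgen x w i ∈ F' := by
    intro i
    unfold tgen
    split_ifs with h1 h2
    · have h3 : V / dlt x ∈ F' := by
        refine mem_of_fixed F' _ fun τ => ?_
        obtain ⟨π, hπ⟩ := exists_perm F' x hinj hcoF τ
        exact VRat_fixed (τ : Ω →+* Ω) hπ
      have h4 : w = y * (V / dlt x)⁻¹ := by rw [hw, inv_div]
      rw [h4]
      exact F'.mul_mem hyF (F'.inv_mem h3)
    · refine mem_of_fixed F' _ fun τ => ?_
      obtain ⟨π, hπ⟩ := exists_perm F' x hinj hcoF τ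
      have h3 := charpoly_map' (τ : Ω →+* Ω) x
      rw [hπ, charpoly_comp] at h3
      conv_rhs => rw [h3, coeff_map]
      rfl
    · refine mem_of_fixed F' _ fun τ => ?_
      obtain ⟨π, hπ⟩ := exists_perm F' x hinj hcoF τ
      have h3 := cmom_map (τ : Ω →+* Ω) x (2 * ((i : ℕ) - n / 2))
      rw [hπ, cmom_comp] at h3
      exact h3.symm
  have heq : K1 = F' := by
    apply le_antisymm
    · rw [hK1, IntermediateField.adjoin_le_iff]
      rintro _ ⟨i, rfl⟩
      exact htF i
    · rw [hF', IntermediateField.adjoin_le_iff]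
      rintro _ ⟨o, rfl⟩
      cases o with
      | none => exact hyK
      | some i => exact haK i
  refine ⟨tgen x w, ?_, heq⟩
  exact algInd_of ha fun i => isAlgebraic_algebraMap (⟨a i, haK i⟩ : K1)

/-- The function field over `k` of the variety `c * disc (f) = y ^ 2` is purely transcendental. -/
theorem disc_rational {k F : Type*} [Field k] [CharZero k] [Field F] [Algebra k F] {n : ℕ}
    (hn : 2 ≤ n) {c : k} (hc : c ≠ 0) {a : Fin n → F} {y : F} (hF : IsDiscField k c a y) :
    ∃ t : Fin n → F, AlgebraicIndependent k t ∧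
      IntermediateField.adjoin k (Set.range t) = ⊤ := by
  obtain ⟨hind, heq, hgen⟩ := hF
  have hcF : CharZero F := charZero_of_injective_algebraMap (algebraMap k F).injective
  set Ω := AlgebraicClosure F with hΩ
  have hcΩ : CharZero Ω := charZero_of_injective_algebraMap (algebraMap F Ω).injective
  set f : F →ₐ[k] Ω := IsScalarTower.toAlgHom k F Ω with hf
  have hfinj : Function.Injective f := (algebraMap F Ω).injective
  have hmap : IntermediateField.adjoin k (Set.range (pt (fun i => f (a i)) (f y)))
      = f.fieldRange := by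
    have h1 : Set.range (pt (fun i => f (a i)) (f y)) = f '' Set.range (pt a y) := by
      rw [← Set.range_comp]
      congr 1
      funext o
      cases o <;> rfl
    rw [h1, ← IntermediateField.adjoin_map, hgen, ← AlgHom.fieldRange_eq_map]
  have halg : Algebra.IsAlgebraic
      (IntermediateField.adjoin k (Set.range (pt (fun i => f (a i)) (f y)))) Ω := by
    rw [hmap]
    let _ : Algebra F f.fieldRange :=
      (RingHom.codRestrict (f : F →+* Ω) f.fieldRange
        (fun x => AlgHom.mem_fieldRange.2 ⟨x, rfl⟩)).toAlgebra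
    have _ : IsScalarTower F f.fieldRange Ω := IsScalarTower.of_algebraMap_eq (fun x => rfl)
    exact Algebra.IsAlgebraic.tower_top (K := F) f.fieldRange
  have hind' : AlgebraicIndependent k (fun i => f (a i)) :=
    hind.map' hfinj
  have heq' : algebraMap k Ω c * (monicPoly (fun i => f (a i))).discr = (f y) ^ 2 := by
    have h1 := discr_monicPoly_map (f : F →+* Ω) a
    have h2 : (monicPoly (fun i => f (a i))).discr = f ((monicPoly a).discr) := h1
    rw [h2, ← map_pow, ← heq, map_mul, AlgHom.commutes]
  obtain ⟨t', ht', htF⟩ := VRat_core hn hc hind' heq'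
  rw [hmap] at htF
  have hex : ∀ i, ∃ s : F, f s = t' i := by
    intro i
    have h1 : t' i ∈ IntermediateField.adjoin k (Set.range t') :=
      IntermediateField.subset_adjoin _ _ (Set.mem_range_self i)
    rw [htF] at h1
    exact h1
  choose t ht using hex
  have htt : (fun i => f (t i)) = t' := funext ht
  refine ⟨t, ?_, ?_⟩
  · have h1 : AlgebraicIndependent k (f ∘ t) := by
      have : f ∘ t = t' := htt
      rw [this]; exact ht'
    exact (AlgHom.algebraicIndependent_iff f hfinj).1 h1
  · apply IntermediateField.map_injective f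
    rw [IntermediateField.adjoin_map, ← Set.range_comp, ← AlgHom.fieldRange_eq_map]
    have : f ∘ t = t' := htt
    rw [this, htF]

end DiscRat
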