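import Mathlib

/-! Module VSpread: birational maps from generators of a function field.

PROOF. exists_birat: an element of adjoin k (range t) is a quotient of two elements of Algebra.adjoin k (range t) (IntermediateField.mem_adjoin_iff / mem_adjoin_range_iff: f ∈ adjoin k (range t) ↔ ∃ r s : MvPolynomial, f = aeval t r / aeval t s); take a common denominator over the finite σ (product of the denominators, σ finite: Fintype.ofFinite) and over Fin n for the T j. A denominator which is zero gives the value 0 (x / 0 = 0): replace it by 1 and the numerator by 0.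
Common tool for forward/backward/exists_param: homogenisation. For G ∈ MvPolynomial σ k, and N ≥ totalDegree G, there is a polynomial hom with hom(u, v) = v^N G(u_i / v) whenever v ≠ 0, in every field; e.g. prove the lemma: for all G : MvPolynomial σ k, P : σ → MvPolynomial τ k, Q : MvPolynomial τ k there are N and R : MvPolynomial τ k such that for every field K (Type v; prove it for a fixed universe, or define R by a formula: R = ∑ over the support of G of coeff * ∏ P i ^ (d i) * Q ^ (N - |d|)) with a k-algebra structure and every s : τ → K with aeval s Q ≠ 0: aeval s R = (aeval s Q)^N * aeval (fun i => aeval s (P i) / aeval s Q) G. Induction on G (MvPolynomial.induction_on) also works: for the sum multiply by powers of Q. It is best to state it with R given by an explicit recursive/explicit definition or to state the conclusion for two fields at once, as K and F live in different universes; alternative: state the lemma as an identity in an arbitrary commutative k-algebra S with an element q and an inverse q': aeval s R *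 q'^N = aeval (fun i => aeval s (P i) * q') G for ALL commutative k-algebras in the universe max of the two fields using ULift; simplest: explicit formula by Finsupp sums.
forward: R for G, P, Q: aeval t R = Q(t)^N * aeval (P(t)/Q(t)) G = Q(t)^N aeval A G = 0, so R = 0 by independence, so 0 = aeval s R = Q(s)^N * G(P(s)/Q(s)).
exists_param: the same R with aeval t R ≠ 0, g = R * Q.
backward: let Q~ be the homogenisation of Q by (T, D): aeval p Q~ = D(p)^N Q(T(p)/D(p)); H = D * Q~: aeval A H ≠ 0 as Q(T(A)/D(A)) = Q(t) ≠ 0. For p with H(p) ≠ 0 put s = T(p)/D(p): Q(s) ≠ 0. The polynomial G_i = (homogenisation of P i by (T,D)) D^M - X i * (homogenisation of Q) D^M' (same total power of D) vanishes at A, as P i (t) = A i Q(t); so it vanishes at p: P i (s) = p i Q(s).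
-/

namespace DiscRat

open MvPolynomial

/-- `A` generates the field `F` and `t` is a transcendence basis which generates `F`, expressed
through polynomials: `A i = P i (t) / Q (t)` and `t j = T j (A) / D (A)` -/
structure Birat {k F σ : Type*} [Field k] [Field F] [Algebra k F] {n : ℕ} (A : σ → F)
    (t : Fin n → F) (P : σ → MvPolynomial (Fin n) k) (Q : MvPolynomial (Fin n) k)
    (T : Fin n → MvPolynomial σ k) (D : MvPolynomial σ k) : Prop where
  indep : AlgebraicIndependent k t
  hQ : aeval t Q ≠ 0
  hP : ∀ i, aeval t (P i) = A i * aeval t Q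
  hD : aeval A D ≠ 0
  hT : ∀ j, aeval A (T j) = t j * aeval A D

/-- homogenisation: `hmg P Q N G` is `Q ^ N * G (P / Q)` when the total degree of `G` is at
most `N` -/
noncomputable def hmg {k σ τ : Type*} [Field k] (P : σ → MvPolynomial τ k) (Q : MvPolynomial τ k)
    (N : ℕ) (G : MvPolynomial σ k) : MvPolynomial τ k :=
  ∑ d ∈ G.support, C (G.coeff d) * (∏ i ∈ d.support, P i ^ d i) * Q ^ (N - ∑ i ∈ d.support, d i)

theorem aeval_hmg {k σ τ : Type*} [Field k] (P : σ → MvPolynomial τ k) (Q : MvPolynomial τ k)
    (N : ℕ) (G : MvPolynomial σ k) (hN : G.totalDegree ≤ N) {K : Type*} [Field K] [Algebra k K]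
    (s : τ → K) (hs : aeval s Q ≠ 0) :
    aeval s (hmg P Q N G) =
      (aeval s Q) ^ N * aeval (fun i => aeval s (P i) / aeval s Q) G := by
  rw [hmg, map_sum, aeval_def (fun i => aeval s (P i) / aeval s Q), eval₂_eq, Finset.mul_sum]
  refine Finset.sum_congr rfl fun d hd => ?_
  have hdN : ∑ i ∈ d.support, d i ≤ N := (le_totalDegree hd).trans hN
  rw [map_mul, map_mul, map_prod, map_pow, aeval_C]
  simp_rw [map_pow, div_pow]
  rw [Finset.prod_div_distrib, Finset.prod_pow_eq_pow_sum]
  have h1 : (aeval s Q) ^ N =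
      (aeval s Q) ^ (N - ∑ i ∈ d.support, d i) * (aeval s Q) ^ (∑ i ∈ d.support, d i) := by
    rw [← pow_add, Nat.sub_add_cancel hdN]
  rw [h1]
  have h2 : (aeval s Q) ^ (∑ i ∈ d.support, d i) ≠ 0 := pow_ne_zero _ hs
  field_simp

theorem mem_adjoin_range_quot {k F τ : Type*} [Field k] [Field F] [Algebra k F] (t : τ → F)
    (x : F) (hx : x ∈ IntermediateField.adjoin k (Set.range t)) :
    ∃ r s : MvPolynomial τ k, aeval t s ≠ 0 ∧ aeval t r = x * aeval t s := by
  obtain ⟨r, s, h⟩ := (IntermediateField.mem_adjoin_range_iff k t x).1 hx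
  by_cases hs : aeval t s = 0
  · refine ⟨0, 1, by simp, ?_⟩
    rw [h, hs]
    simp
  · exact ⟨r, s, hs, by rw [h, div_mul_cancel₀ _ hs]⟩

theorem exists_common_denom {k F σ τ : Type*} [Field k] [Field F] [Algebra k F] [Finite σ]
    (t : τ → F) (A : σ → F) (h : IntermediateField.adjoin k (Set.range t) = ⊤) :
    ∃ (P : σ → MvPolynomial τ k) (Q : MvPolynomial τ k), aeval t Q ≠ 0 ∧
      ∀ i, aeval t (P i) = A i * aeval t Q := by
  classical
  cases nonempty_fintype σ
  have h1 : ∀ i, ∃ r s : MvPolynomial τ k, aeval t s ≠ 0 ∧ aeval t r = A i * aeval t s :=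
    fun i => mem_adjoin_range_quot t (A i) (by rw [h]; trivial)
  choose r s hs hr using h1
  refine ⟨fun i => r i * ∏ j ∈ Finset.univ.erase i, s j, ∏ j, s j, ?_, fun i => ?_⟩
  · rw [map_prod]
    exact Finset.prod_ne_zero_iff.2 fun j _ => hs j
  · rw [map_mul, hr i, map_prod, map_prod,
      ← Finset.mul_prod_erase Finset.univ (fun j => aeval t (s j)) (Finset.mem_univ i)]
    ring

theorem exists_birat {k F σ : Type*} [Field k] [Field F] [Algebra k F] [Finite σ] {n : ℕ}
    {A : σ → F} {t : Fin n → F} (hA : IntermediateField.adjoin k (Set.range A) = ⊤)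
    (ht : AlgebraicIndependent k t) (htg : IntermediateField.adjoin k (Set.range t) = ⊤) :
    ∃ (P : σ → MvPolynomial (Fin n) k) (Q : MvPolynomial (Fin n) k)
      (T : Fin n → MvPolynomial σ k) (D : MvPolynomial σ k), Birat A t P Q T D := by
  obtain ⟨P, Q, hQ, hP⟩ := exists_common_denom t A htg
  obtain ⟨T, D, hD, hT⟩ := exists_common_denom A t hA
  exact ⟨P, Q, T, D, ⟨ht, hQ, hP, hD, hT⟩⟩

theorem Birat.fun_P {k F σ : Type*} [Field k] [Field F] [Algebra k F] {n : ℕ} {A : σ → F}
    {t : Fin n → F} {P : σ → MvPolynomial (Fin n) k} {Q : MvPolynomial (Fin n) k}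
    {T : Fin n → MvPolynomial σ k} {D : MvPolynomial σ k} (B : Birat A t P Q T D) :
    (fun i => aeval t (P i) / aeval t Q) = A := by
  funext i
  rw [B.hP i, mul_div_cancel_right₀ _ B.hQ]

theorem Birat.fun_T {k F σ : Type*} [Field k] [Field F] [Algebra k F] {n : ℕ} {A : σ → F}
    {t : Fin n → F} {P : σ → MvPolynomial (Fin n) k} {Q : MvPolynomial (Fin n) k}
    {T : Fin n → MvPolynomial σ k} {D : MvPolynomial σ k} (B : Birat A t P Q T D) :
    (fun j => aeval A (T j) / aeval A D) = t := by
  funext j
  rw [B.hT j, mul_div_cancel_right₀ _ B.hD]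

/-- a point of affine space gives a point of the variety with function field `F` -/
theorem Birat.forward {k F σ : Type*} [Field k] [Field F] [Algebra k F] {n : ℕ} {A : σ → F}
    {t : Fin n → F} {P : σ → MvPolynomial (Fin n) k} {Q : MvPolynomial (Fin n) k}
    {T : Fin n → MvPolynomial σ k} {D : MvPolynomial σ k} (B : Birat A t P Q T D)
    {K : Type*} [Field K] [Algebra k K] (s : Fin n → K) (hs : aeval s Q ≠ 0)
    (G : MvPolynomial σ k) (hG : aeval A G = 0) :
    aeval (fun i => aeval s (P i) / aeval s Q) G = 0 := by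
  have h1 := aeval_hmg P Q G.totalDegree G le_rfl t B.hQ
  rw [B.fun_P, hG, mul_zero] at h1
  have h2 : hmg P Q G.totalDegree G = 0 := by
    apply B.indep
    rw [h1, map_zero]
  have h3 := aeval_hmg P Q G.totalDegree G le_rfl s hs
  rw [h2, map_zero] at h3
  rcases mul_eq_zero.1 h3.symm with h4 | h4
  · exact absurd h4 (pow_ne_zero _ hs)
  · exact h4

/-- nonvanishing in terms of the parameters -/
theorem Birat.exists_param {k F σ : Type*} [Field k] [Field F] [Algebra k F] {n : ℕ} {A : σ → F}
    {t : Fin n → F} {P : σ → MvPolynomial (Fin n) k} {Q : MvPolynomial (Fin n) k}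
    {T : Fin n → MvPolynomial σ k} {D : MvPolynomial σ k} (B : Birat A t P Q T D)
    (G : MvPolynomial σ k) (hG : aeval A G ≠ 0) : ∃ g : MvPolynomial (Fin n) k, g ≠ 0 ∧
      ∀ s : Fin n → k, eval s g ≠ 0 → eval s Q ≠ 0 ∧
        eval (fun i => eval s (P i) / eval s Q) G ≠ 0 := by
  have h1 := aeval_hmg P Q G.totalDegree G le_rfl t B.hQ
  rw [B.fun_P] at h1
  refine ⟨hmg P Q G.totalDegree G * Q, ?_, fun s hs => ?_⟩
  · refine mul_ne_zero (fun h0 => ?_) (fun h0 => ?_)
    · rw [h0, map_zero] at h1
      exact mul_ne_zero (pow_ne_zero _ B.hQ) hG h1.symm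
    · exact B.hQ (by rw [h0, map_zero])
  · rw [map_mul] at hs
    have hsQ : eval s Q ≠ 0 := right_ne_zero_of_mul hs
    refine ⟨hsQ, fun h0 => left_ne_zero_of_mul hs ?_⟩
    have h3 : eval s (hmg P Q G.totalDegree G) =
        (eval s Q) ^ G.totalDegree * eval (fun i => eval s (P i) / eval s Q) G :=
      aeval_hmg P Q G.totalDegree G le_rfl (K := k) s hsQ
    rw [h3, h0, mul_zero]

/-- most points of the variety come from points of affine space -/
theorem Birat.backward.{v} {k F σ : Type*} [Field k] [Field F] [Algebra k F] {n : ℕ} {A : σ → F}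
    {t : Fin n → F} {P : σ → MvPolynomial (Fin n) k} {Q : MvPolynomial (Fin n) k}
    {T : Fin n → MvPolynomial σ k} {D : MvPolynomial σ k} (B : Birat A t P Q T D) :
    ∃ H : MvPolynomial σ k, aeval A H ≠ 0 ∧ ∀ (K : Type v) [Field K] [Algebra k K] (p : σ → K),
      (∀ G : MvPolynomial σ k, aeval A G = 0 → aeval p G = 0) → aeval p H ≠ 0 →
      ∃ s : Fin n → K, aeval s Q ≠ 0 ∧ ∀ i, aeval s (P i) / aeval s Q = p i := by
  refine ⟨D * hmg T D Q.totalDegree Q, ?_, fun K _ _ p hp hH => ?_⟩
  · rw [map_mul, aeval_hmg T D Q.totalDegree Q le_rfl A B.hD, B.fun_T]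
    exact mul_ne_zero B.hD (mul_ne_zero (pow_ne_zero _ B.hD) B.hQ)
  · rw [map_mul] at hH
    have hpD : aeval p D ≠ 0 := left_ne_zero_of_mul hH
    have hpQ := right_ne_zero_of_mul hH
    rw [aeval_hmg T D Q.totalDegree Q le_rfl p hpD] at hpQ
    have hsQ := right_ne_zero_of_mul hpQ
    refine ⟨fun j => aeval p (T j) / aeval p D, hsQ, fun i => ?_⟩
    rw [div_eq_iff hsQ]
    have h1 := hp (hmg T D (max (P i).totalDegree Q.totalDegree) (P i) -
      X i * hmg T D (max (P i).totalDegree Q.totalDegree) Q) (by
        rw [map_sub, map_mul, aeval_X, aeval_hmg T D _ (P i) (le_max_left _ _) A B.hD,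
          aeval_hmg T D _ Q (le_max_right _ _) A B.hD, B.fun_T, B.hP i]
        ring)
    rw [map_sub, map_mul, aeval_X, aeval_hmg T D _ (P i) (le_max_left _ _) p hpD,
      aeval_hmg T D _ Q (le_max_right _ _) p hpD] at h1
    have h2 : (aeval p D) ^ (max (P i).totalDegree Q.totalDegree) *
        (aeval (fun j => aeval p (T j) / aeval p D) (P i) -
          p i * aeval (fun j => aeval p (T j) / aeval p D) Q) = 0 := by
      rw [← h1]
      ring
    rcases mul_eq_zero.1 h2 with h3 | h3
    · exact absurd h3 (pow_ne_zero _ hpD)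
    · exact sub_eq_zero.1 h3

end DiscRat
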