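import Pool.Agent.H.DiscRat.VStat
import Pool.Agent.H.DiscRat.VVanish
import Pool.Agent.H.DiscRat.VPert
import Pool.Agent.H.DiscRat.VSpread
import Pool.Agent.H.DiscRat.VRat
import Pool.Agent.H.DiscRat.VExist
import Pool.Agent.H.MP_83e36b_nt.RSeq
import Pool.Agent.H.MP_83e36b_nt.J1

/-! Module VWA: weak approximation for finitely many places.

PROOF. If c = 0 there is no local datum (0 = y^2, y ≠ 0; ι nonempty). Let c ≠ 0. letI : ∀ i, Algebra k (K i) := fun i => (φ i).toAlgebra. F, a, y from exists_discField (VExist), t from disc_rational (VRat), P, Q, T, D from exists_birat (σ = Option (Fin n), A = pt a y, hF.gen), H from Birat.backward (with v = the universe of the K i).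
DiscWA: given f i, y i valid and ε. By exists_pert at every i: sequences f' i m, z' i m, valid, tending to f i, y i, with H ≠ 0. By App.limit (RSeq) it is enough to show App c n φ (fun i => f' i m) (fun i => z' i m) for every m (DiscWA is ∀ f y, valid → App-like statement: App is by definition the conclusion). Fix m. By vanish (VVanish) all relations G hold at the point pt (coefficients of f' i m) (z' i m) (monicPoly of the coefficients is f': monicPoly_of_monic, J1), so Birat.backward gives s i : Fin n → K i with Q(s i) ≠ 0 and P j (s i) / Q(s i) = the coordinates. exists_seq (H1b) for each j : Fin n gives u_j : ℕ → k with φ i (u_j N) → s i j for all i. Put U N = fun j => u_j N. G N = monicPoly (fun j => eval (U N) (P (some j)) / eval (U N) Q), Z N = eval (U N) (P none) / eval (U N) Q. MvPolynomial evaluation is continuous, φ i (eval (U N) P) = aeval (φ i ∘ U N) P → aeval (s i) P (e.g. MvPolynomial.continuous_eval or induction), so φ i (eval (U N) Q) is eventually ≠ 0, and φ i (Z N) → z' i m ≠ 0, so eventually eval (U N)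 Q ≠ 0 and Z N ≠ 0 (ι nonempty). By Birat.forward with K = k and G = X none ^ 2 - C c * rename some (discMv k n) (it vanishes at pt a y by hF.eq and aeval_discMv): c * disc (G N) = (Z N)^2 eventually. App.of_seq (RSeq) concludes.
-/

open Polynomial Filter Topology

namespace DiscRat

open AnWA

universe w

/-- a form of `Birat.backward` for a family of fields -/
theorem VWA_back {k F : Type*} [Field k] [Field F] [Algebra k F] {σ : Type*} {n : ℕ} {A : σ → F}
    {t : Fin n → F} {P : σ → MvPolynomial (Fin n) k} {Q : MvPolynomial (Fin n) k}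
    {T : Fin n → MvPolynomial σ k} {D : MvPolynomial σ k} (B : Birat A t P Q T D)
    {ι : Type*} (K : ι → Type w) [∀ i, NormedField (K i)] [∀ i, Algebra k (K i)] :
    ∃ H : MvPolynomial σ k, MvPolynomial.aeval A H ≠ 0 ∧ ∀ (i : ι) (p : σ → K i),
      (∀ G : MvPolynomial σ k, MvPolynomial.aeval A G = 0 → MvPolynomial.aeval p G = 0) →
      MvPolynomial.aeval p H ≠ 0 →
      ∃ s : Fin n → K i, MvPolynomial.aeval s Q ≠ 0 ∧
        ∀ j, MvPolynomial.aeval s (P j) / MvPolynomial.aeval s Q = p j := by
  obtain ⟨H, hH, hback⟩ := Birat.backward.{w} B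
  exact ⟨H, hH, fun i p h1 h2 => hback (K i) p h1 h2⟩

theorem VWA_coeff_lt {R : Type*} [CommRing R] {n : ℕ} (a : Fin n → R) {j : ℕ} (hj : j < n) :
    (monicPoly a).coeff j = a ⟨j, hj⟩ :=
  monicPoly_coeff a ⟨j, hj⟩

theorem VWA_coeff_eq {R : Type*} [CommRing R] [Nontrivial R] {n : ℕ} (a : Fin n → R) {j : ℕ}
    (hj : j = n) : (monicPoly a).coeff j = 1 := by
  have := (monicPoly_monic a).coeff_natDegree
  rw [monicPoly_natDegree] at this
  rw [hj]
  exact this

theorem VWA_coeff_gt {R : Type*} [CommRing R] [Nontrivial R] {n : ℕ} (a : Fin n → R) {j : ℕ}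
    (hj : n < j) : (monicPoly a).coeff j = 0 :=
  coeff_eq_zero_of_natDegree_lt (by rw [monicPoly_natDegree]; exact hj)

theorem discWA_all {k : Type*} [Field k] [CharZero k] {ι : Type*} [Finite ι] [Nonempty ι]
    {K : ι → Type*} [∀ i, NormedField (K i)] {φ : ∀ i, k →+* K i} (hWA : FieldWA φ)
    (hK : ∀ i, ∃ x : K i, 1 < ‖x‖) {n : ℕ} (hn : 2 ≤ n) (c : k) : DiscWA c n φ := by
  classical
  intro f y hfy
  by_cases hc : c = 0
  · obtain ⟨i0⟩ := (inferInstance : Nonempty ι)
    exfalso
    obtain ⟨_, _, h1, h2⟩ := hfy i0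
    rw [hc, map_zero, zero_mul] at h1
    exact h2 (pow_eq_zero_iff two_ne_zero |>.1 h1.symm)
  let alg : ∀ i, Algebra k (K i) := fun i => (φ i).toAlgebra
  have halg : ∀ i (x : k), algebraMap k (K i) x = φ i x := fun i x => rfl
  obtain ⟨F, _, _, a, y0, hF⟩ := exists_discField k n c
  obtain ⟨t, ht, htg⟩ := disc_rational hn hc hF
  obtain ⟨P, Q, T, D, B⟩ := exists_birat hF.gen ht htg
  obtain ⟨H, hH, hback⟩ := VWA_back B K
  have hpert : ∀ i, ∃ (f' : ℕ → (K i)[X]) (z' : ℕ → K i),
      (∀ m, (f' m).Monic ∧ (f' m).natDegree = n ∧ algebraMap k (K i) c * (f' m).discr = z' m ^ 2 ∧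
        z' m ≠ 0 ∧ MvPolynomial.aeval (pt (fun j : Fin n => (f' m).coeff j) (z' m)) H ≠ 0) ∧
      PolyTendsto atTop f' (f i) ∧ Tendsto z' atTop (𝓝 (y i)) := fun i =>
    exists_pert (hK i) hn hc hF.indep hF.eq H hH (hfy i).1 (hfy i).2.1 (hfy i).2.2.1 (hfy i).2.2.2
  choose f' z' hf' h1 h2 using hpert
  have happ : App c n φ f y := by
    refine App.limit (fun m i => f' i m) (fun m i => z' i m) (fun i => ⟨(hfy i).1, (hfy i).2.1⟩)
      (fun m i => ⟨(hf' i m).1, (hf' i m).2.1⟩) h1 h2 ?_
    intro m
    have hs : ∀ i, ∃ s : Fin n → K i, MvPolynomial.aeval s Q ≠ 0 ∧ ∀ j,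
        MvPolynomial.aeval s (P j) / MvPolynomial.aeval s Q =
          pt (fun j : Fin n => (f' i m).coeff j) (z' i m) j := by
      intro i
      refine hback i _ ?_ (hf' i m).2.2.2.2
      intro G hG
      refine vanish hn hc hF.indep hF.eq G hG _ _ ?_
      rw [monicPoly_of_monic (hf' i m).1 (hf' i m).2.1]
      exact (hf' i m).2.2.1
    choose s hsQ hsP using hs
    have hu : ∀ j : Fin n, ∃ u : ℕ → k, ∀ i, Tendsto (fun N => φ i (u N)) atTop (𝓝 (s i j)) :=
      fun j => exists_seq hWA (fun i => s i j)
    choose u hu using hu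
    have hev : ∀ i (G : MvPolynomial (Fin n) k),
        Tendsto (fun N => φ i (MvPolynomial.aeval (fun j => u j N) G)) atTop
          (𝓝 (MvPolynomial.aeval (s i) G)) := by
      intro i G
      induction G using MvPolynomial.induction_on with
      | C a =>
        simp only [MvPolynomial.aeval_C, Algebra.algebraMap_self, RingHom.id_apply, halg]
        exact tendsto_const_nhds
      | add p q hp hq => simpa only [map_add] using hp.add hq
      | mul_X p j hp => simpa only [map_mul, MvPolynomial.aeval_X] using hp.mul (hu j i)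
    have hQe : ∀ᶠ N in atTop, MvPolynomial.aeval (fun j => u j N) Q ≠ 0 := by
      obtain ⟨i0⟩ := (inferInstance : Nonempty ι)
      filter_upwards [(hev i0 Q).eventually_ne (hsQ i0)] with N hN h0
      exact hN (by rw [h0, map_zero])
    have hdiv : ∀ i (j : Option (Fin n)), Tendsto (fun N => φ i
        (MvPolynomial.aeval (fun j => u j N) (P j) / MvPolynomial.aeval (fun j => u j N) Q)) atTop
        (𝓝 (pt (fun j : Fin n => (f' i m).coeff j) (z' i m) j)) := by
      intro i j
      rw [← hsP i j]
      simp only [map_div₀]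
      exact (hev i (P j)).div (hev i Q) (hsQ i)
    have hZe : ∀ᶠ N in atTop, MvPolynomial.aeval (fun j => u j N) (P none) /
        MvPolynomial.aeval (fun j => u j N) Q ≠ 0 := by
      obtain ⟨i0⟩ := (inferInstance : Nonempty ι)
      filter_upwards [(hdiv i0 none).eventually_ne (hf' i0 m).2.2.2.1] with N hN h0
      exact hN (by rw [h0, map_zero])
    refine App.of_seq (fun i => ⟨(hf' i m).1, (hf' i m).2.1⟩)
      (fun N => monicPoly (fun j => MvPolynomial.aeval (fun j => u j N) (P (some j)) /
        MvPolynomial.aeval (fun j => u j N) Q))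
      (fun N => MvPolynomial.aeval (fun j => u j N) (P none) /
        MvPolynomial.aeval (fun j => u j N) Q) ?_ ?_ ?_
    · filter_upwards [hQe, hZe] with N hN1 hN2
      refine ⟨monicPoly_monic _, monicPoly_natDegree _, ?_, hN2⟩
      have h3 := B.forward (fun j => u j N) hN1
        (MvPolynomial.X none ^ 2 - MvPolynomial.C c * MvPolynomial.rename some (discMv k n)) (by
          rw [map_sub, map_mul, map_pow, MvPolynomial.aeval_X, MvPolynomial.aeval_C,
            MvPolynomial.aeval_rename]
          change y0 ^ 2 - algebraMap k F c * MvPolynomial.aeval a (discMv k n) = 0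
          rw [aeval_discMv, hF.eq, sub_self])
      rw [map_sub, map_mul, map_pow, MvPolynomial.aeval_X, MvPolynomial.aeval_C,
        MvPolynomial.aeval_rename, sub_eq_zero] at h3
      rw [h3, Algebra.algebraMap_self, RingHom.id_apply]
      congr 1
      exact (aeval_discMv _).symm
    · intro i j
      rw [← monicPoly_of_monic (hf' i m).1 (hf' i m).2.1]
      simp only [Polynomial.coeff_map]
      rcases lt_trichotomy j n with hj | hj | hj
      · simp only [VWA_coeff_lt _ hj]
        exact hdiv i (some ⟨j, hj⟩)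
      · simp only [VWA_coeff_eq _ hj, map_one]
        exact tendsto_const_nhds
      · simp only [VWA_coeff_gt _ hj, map_zero]
        exact tendsto_const_nhds
    · intro i
      exact hdiv i none
  exact happ

end DiscRat
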