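import Pool.Agent.H.DiscRat.VStat
import Pool.Agent.H.DiscRat.VWA
import Pool.Agent.H.MP_83e36b_nt.PlaceDefs
import Pool.Agent.H.MP_83e36b_nt.I1a
import Pool.Agent.H.MP_83e36b_nt.J1

/-! Module VFinal: density in the product over all places. -/

open Polynomial NumberField IsDedekindDomain

namespace DiscRat

open AnWA

/-- every completion contains elements of norm greater than one -/
theorem exists_one_lt_norm {k : Type*} [Field k] [NumberField k]
    (T : Finset (HeightOneSpectrum (𝓞 k))) (i) : ∃ x : Compl T i, 1 < ‖x‖ := by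
  rcases i with v | v
  · refine ⟨complEmb T (Sum.inl v) 2, ?_⟩
    rw [norm_complEmb]
    show 1 < v (2 : k)
    rw [← InfinitePlace.norm_embedding_eq v 2, map_ofNat]
    norm_num
  · let iN : NontriviallyNormedField (v.1.adicCompletion k) :=
      Valued.toNontriviallyNormedField (v.1.adicCompletion k) (WithZero (Multiplicative ℤ))
    exact iN.non_trivial

variable {k : Type*} [Field k] [NumberField k]

theorem dense_of_discWA {n : ℕ} (c : k) (T : Finset (HeightOneSpectrum (𝓞 k)))
    (hWA : DiscWA c n (complEmb T)) :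
    DenseRange (fun p : DiscPts n k c =>
      ((fun v : InfinitePlace k => mapPt (algebraMap k v.Completion) p),
       (fun v : T => mapPt (algebraMap k (v.1.adicCompletion k)) p))) := by
  rintro ⟨A, B⟩
  -- the data at all places
  let D : ∀ i, DiscPts n (Compl T i) (complEmb T i c) := fun i =>
    match i with
    | Sum.inl v => A v
    | Sum.inr v => B v
  have hD : ∀ i, (monicPoly (D i).1.1).Monic ∧ (monicPoly (D i).1.1).natDegree = n ∧
      complEmb T i c * (monicPoly (D i).1.1).discr = (D i).1.2 ^ 2 ∧ (D i).1.2 ≠ 0 := fun i =>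
    ⟨monicPoly_monic _, monicPoly_natDegree _, (D i).2.1, (D i).2.2⟩
  have hex : ∀ N : ℕ, ∃ p : DiscPts n k c, ∀ i,
      (∀ j : Fin n, ‖(mapPt (complEmb T i) p).1.1 j - (D i).1.1 j‖ < 1 / ((N : ℝ) + 1)) ∧
      ‖(mapPt (complEmb T i) p).1.2 - (D i).1.2‖ < 1 / ((N : ℝ) + 1) := by
    intro N
    obtain ⟨g, z, g1, g2, g3, g4, g5⟩ := hWA (fun i => monicPoly (D i).1.1) (fun i => (D i).1.2)
      hD (1 / ((N : ℝ) + 1)) (by positivity)
    refine ⟨⟨(fun i : Fin n => g.coeff i, z), ?_, g4⟩, ?_⟩
    · change c * (monicPoly (fun i : Fin n => g.coeff i)).discr = z ^ 2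
      rw [monicPoly_of_monic g1 g2]
      exact g3
    · intro i
      refine ⟨fun j => ?_, (g5 i).1⟩
      have := (g5 i).2 j
      rw [coeff_map, monicPoly_coeff] at this
      exact this
  choose p hp using hex
  refine mem_closure_of_tendsto (f := fun N => ((fun v : InfinitePlace k =>
    mapPt (algebraMap k v.Completion) (p N)),
    (fun v : T => mapPt (algebraMap k (v.1.adicCompletion k)) (p N)))) (b := Filter.atTop) ?_
    (Filter.Eventually.of_forall fun N => ⟨p N, rfl⟩)
  rw [Prod.tendsto_iff]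
  constructor
  · rw [tendsto_pi_nhds]
    intro v
    exact DiscPts.tendsto _ _ (fun N j => (hp N (Sum.inl v)).1 j) (fun N => (hp N (Sum.inl v)).2)
  · rw [tendsto_pi_nhds]
    intro v
    exact DiscPts.tendsto _ _ (fun N j => (hp N (Sum.inr v)).1 j) (fun N => (hp N (Sum.inr v)).2)

/-- Weak approximation at all places. -/
theorem main_all_n {n : ℕ} (hn : 2 ≤ n) (c : k) :
    DenseRange (fun p : DiscPts n k c =>
      ((fun v : InfinitePlace k => mapPt (algebraMap k v.Completion) p),
       (fun v : HeightOneSpectrum (𝓞 k) => mapPt (algebraMap k (v.adicCompletion k)) p))) := by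
  classical
  rintro ⟨A, B⟩
  rw [mem_closure_iff_nhds]
  intro U hU
  rw [nhds_prod_eq, Filter.mem_prod_iff] at hU
  obtain ⟨U1, hU1, U2, hU2, hsub⟩ := hU
  rw [nhds_pi, Filter.mem_pi] at hU2
  obtain ⟨S, hS, t, ht, hts⟩ := hU2
  set T : Finset (HeightOneSpectrum (𝓞 k)) := hS.toFinset with hTdef
  have hne : Nonempty (InfinitePlace k ⊕ {v // v ∈ T}) :=
    ⟨Sum.inl (Classical.arbitrary (InfinitePlace k))⟩
  have hdense := dense_of_discWA c T
    (discWA_all (fieldWA_numberField T) (exists_one_lt_norm T) hn c)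
  have h1 := hdense (A, fun v => B v.1)
  rw [mem_closure_iff_nhds] at h1
  have hnhds : U1 ×ˢ (Set.pi Set.univ (fun v : {v // v ∈ T} => t v.1)) ∈
      nhds (A, fun v : {v // v ∈ T} => B v.1) := by
    rw [nhds_prod_eq]
    refine Filter.prod_mem_prod hU1 ?_
    exact set_pi_mem_nhds Set.finite_univ (fun v _ => ht v.1)
  obtain ⟨_, ⟨hp1, hp2⟩, p, rfl⟩ := h1 _ hnhds
  refine ⟨_, hsub ⟨hp1, hts ?_⟩, p, rfl⟩
  intro v hv
  exact hp2 ⟨v, hS.mem_toFinset.mpr hv⟩ (Set.mem_univ _)

end DiscRat
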