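import Pool.Agent.H.DiscRat.VStat
import Pool.Agent.H.DiscRat.VSpread
import Pool.Agent.H.DiscRat.VRat
import Pool.Agent.H.DiscRat.VSplit
import Pool.Agent.H.DiscRat.VKey

/-! Module VHP: Hilbert property.

PROOF. Birat.cover: the k-algebra map e : FractionRing (MvPolynomial (Fin n) k) → F, X j ↦ t j (IsFractionRing.lift of the injective aeval t) is an isomorphism as t generates F. For every coefficient polynomial G of R (finitely many) homogenise (tool in VSpread; ask helper/see VSpread for its name, or prove it here): with N large for all coefficients let R'_j be the polynomial with value Q(s)^N * R_j(P(s)/Q(s)) at s when Q(s) ≠ 0 (same N for all j), R' = ∑ R'_j X^j. Then e maps R'.map algebraMap to Q(t)^N • R.map (aeval A), which is irreducible of the same degree (unit multiple); irreducibility and degrees transfer along the isomorphism e (Polynomial.mapEquiv). For s with Q(s) ≠ 0: R'.map (eval s) = Q(s)^N • R.map (eval (P(s)/Q(s))), so they have the same zeros.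
hilbert_property: t from disc_rational, Birat from exists_birat (hF.gen). For each R ∈ S choose R' by Birat.cover. Let g1 from Birat.exists_param for G = g * X none (X none has the value y ≠ 0: y^2 = c disc(a) ≠ 0, as discMv k n ≠ 0 and a independent; aeval_discMv; discMv ≠ 0 e.g. by key_sq in VKey (import it) with G0 = 0, G1 = 1). Apply hk with m = n, the image family {R'} and g1: s with g1(s) ≠ 0 and no zeros. The point p = (P(s)/Q(s)) satisfies c disc = z^2 by Birat.forward with G = X none ^ 2 - C c * rename some (discMv k n), z ≠ 0 and g ≠ 0 there by exists_param.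
-/

open Polynomial

namespace DiscRat

open AnWA

/-- homogenisation of the coefficients -/
noncomputable def hmgP {k σ τ : Type*} [Field k] (P : σ → MvPolynomial τ k) (Q : MvPolynomial τ k)
    (N : ℕ) (R : (MvPolynomial σ k)[X]) : (MvPolynomial τ k)[X] :=
  ∑ j ∈ R.support, monomial j (hmg P Q N (R.coeff j))

theorem hmg_zero {k σ τ : Type*} [Field k] (P : σ → MvPolynomial τ k) (Q : MvPolynomial τ k)
    (N : ℕ) : hmg P Q N (0 : MvPolynomial σ k) = 0 := by
  simp [hmg]

theorem hmgP_coeff {k σ τ : Type*} [Field k] (P : σ → MvPolynomial τ k) (Q : MvPolynomial τ k)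
    (N : ℕ) (R : (MvPolynomial σ k)[X]) (j : ℕ) :
    (hmgP P Q N R).coeff j = hmg P Q N (R.coeff j) := by
  classical
  rw [hmgP, finsetSum_coeff]
  simp only [coeff_monomial]
  rw [Finset.sum_ite_eq' R.support j (fun i => hmg P Q N (R.coeff i))]
  split_ifs with h
  · rfl
  · rw [notMem_support_iff.1 h, hmg_zero]

/-- specialisation of the homogenised polynomial -/
theorem hmgP_map {k σ τ : Type*} [Field k] (P : σ → MvPolynomial τ k) (Q : MvPolynomial τ k)
    (N : ℕ) (R : (MvPolynomial σ k)[X]) (hN : ∀ j, (R.coeff j).totalDegree ≤ N) {K : Type*}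
    [Field K] [Algebra k K] (s : τ → K) (hs : MvPolynomial.aeval s Q ≠ 0) :
    (hmgP P Q N R).map (MvPolynomial.aeval s : MvPolynomial τ k →ₐ[k] K).toRingHom =
      C ((MvPolynomial.aeval s Q) ^ N) * R.map (MvPolynomial.aeval (fun i =>
        MvPolynomial.aeval s (P i) / MvPolynomial.aeval s Q) : MvPolynomial σ k →ₐ[k] K).toRingHom := by
  ext j
  rw [coeff_map, coeff_C_mul, coeff_map, hmgP_coeff]
  exact aeval_hmg P Q N (R.coeff j) (hN j) s hs

/-- transfer of a cover to the affine space of parameters -/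
theorem Birat.cover {k F σ : Type*} [Field k] [Field F] [Algebra k F] [Finite σ] {n : ℕ}
    {A : σ → F} {t : Fin n → F} {P : σ → MvPolynomial (Fin n) k} {Q : MvPolynomial (Fin n) k}
    {T : Fin n → MvPolynomial σ k} {D : MvPolynomial σ k} (B : Birat A t P Q T D)
    (htg : IntermediateField.adjoin k (Set.range t) = ⊤) (R : (MvPolynomial σ k)[X])
    (hR : 2 ≤ (R.map (MvPolynomial.aeval A : MvPolynomial σ k →ₐ[k] F).toRingHom).natDegree)
    (hR2 : Irreducible (R.map (MvPolynomial.aeval A : MvPolynomial σ k →ₐ[k] F).toRingHom)) :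
    ∃ R' : (MvPolynomial (Fin n) k)[X], 2 ≤ R'.natDegree ∧
      Irreducible (R'.map (algebraMap (MvPolynomial (Fin n) k)
        (FractionRing (MvPolynomial (Fin n) k)))) ∧
      ∀ s : Fin n → k, MvPolynomial.eval s Q ≠ 0 →
        (∀ x : k, (R'.map (MvPolynomial.eval s)).eval x ≠ 0) →
        ∀ x : k, (R.map (MvPolynomial.eval (fun i =>
          MvPolynomial.eval s (P i) / MvPolynomial.eval s Q))).eval x ≠ 0 := by
  classical
  set N : ℕ := R.support.sup (fun j => (R.coeff j).totalDegree) with hNdef
  have hN : ∀ j, (R.coeff j).totalDegree ≤ N := by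
    intro j
    by_cases hj : j ∈ R.support
    · exact Finset.le_sup (f := fun j => (R.coeff j).totalDegree) hj
    · rw [notMem_support_iff.1 hj, MvPolynomial.totalDegree_zero]
      exact Nat.zero_le _
  have hmapt := hmgP_map P Q N R hN t B.hQ
  rw [B.fun_P] at hmapt
  have hu : IsUnit (C ((MvPolynomial.aeval t Q) ^ N) : F[X]) :=
    isUnit_C.2 (IsUnit.mk0 _ (pow_ne_zero _ B.hQ))
  -- the isomorphism of the fraction field with F
  let e : FractionRing (MvPolynomial (Fin n) k) ≃ₐ[k] F :=
    (B.indep.aevalEquivField.trans (IntermediateField.equivOfEq htg)).trans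
      IntermediateField.topEquiv
  have he : ∀ G : MvPolynomial (Fin n) k,
      e (algebraMap _ (FractionRing (MvPolynomial (Fin n) k)) G) = MvPolynomial.aeval t G := by
    intro G
    have h1 := B.indep.aevalEquivField_algebraMap_apply_coe G
    show ((B.indep.aevalEquivField (algebraMap _ _ G) : _) : F) = _
    exact h1
  have hmm : ((hmgP P Q N R).map (algebraMap (MvPolynomial (Fin n) k)
      (FractionRing (MvPolynomial (Fin n) k)))).map (e : _ ≃+* F).toRingHom =
      C ((MvPolynomial.aeval t Q) ^ N) *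
        R.map (MvPolynomial.aeval A : MvPolynomial σ k →ₐ[k] F).toRingHom := by
    rw [← hmapt, Polynomial.map_map]
    congr 1
    ext G
    · exact he _
    · exact he _
  refine ⟨hmgP P Q N R, ?_, ?_, ?_⟩
  · have h1 : ((hmgP P Q N R).map
        (MvPolynomial.aeval t : MvPolynomial (Fin n) k →ₐ[k] F).toRingHom).natDegree =
        (R.map (MvPolynomial.aeval A : MvPolynomial σ k →ₐ[k] F).toRingHom).natDegree := by
      rw [hmapt, natDegree_C_mul (pow_ne_zero _ B.hQ)]
    exact (h1 ▸ hR).trans natDegree_map_le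
  · have h2 : Irreducible (C ((MvPolynomial.aeval t Q) ^ N) *
        R.map (MvPolynomial.aeval A : MvPolynomial σ k →ₐ[k] F).toRingHom) :=
      (irreducible_isUnit_mul hu).2 hR2
    rw [← hmm] at h2
    have h3 := (MulEquiv.irreducible_iff (Polynomial.mapEquiv (e : _ ≃+* F))
      (x := (hmgP P Q N R).map (algebraMap (MvPolynomial (Fin n) k)
        (FractionRing (MvPolynomial (Fin n) k)))))
    exact h3.1 h2
  · intro s hs hx x hx0
    have h4 := hmgP_map P Q N R hN (K := k) s hs
    have h5 : (hmgP P Q N R).map (MvPolynomial.eval s) =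
        C ((MvPolynomial.eval s Q) ^ N) * R.map (MvPolynomial.eval (fun i =>
          MvPolynomial.eval s (P i) / MvPolynomial.eval s Q)) := h4
    apply hx x
    rw [h5, eval_mul, hx0, mul_zero]

theorem vhp_discMv_ne {k : Type*} [Field k] [CharZero k] {n : ℕ} (hn : 2 ≤ n) :
    discMv k n ≠ 0 := by
  intro h
  have h1 := (key_sq (k := k) hn (one_ne_zero (α := k)) 0 1 (by rw [h]; simp)).2
  exact one_ne_zero h1

/-- The variety `c * disc (f) = y ^ 2` has the Hilbert property. -/
theorem hilbert_property {k : Type*} [Field k] [CharZero k] (hk : IsHilbertian k) {n : ℕ}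
    (hn : 2 ≤ n) {c : k} (hc : c ≠ 0) {F : Type*} [Field F] [Algebra k F] {a : Fin n → F}
    {y : F} (hF : IsDiscField k c a y) (S : Finset (MvPolynomial (Option (Fin n)) k)[X])
    (hS : ∀ R ∈ S, 2 ≤ (R.map (MvPolynomial.aeval (pt a y) :
        MvPolynomial (Option (Fin n)) k →ₐ[k] F).toRingHom).natDegree ∧
      Irreducible (R.map (MvPolynomial.aeval (pt a y) :
        MvPolynomial (Option (Fin n)) k →ₐ[k] F).toRingHom))
    (g : MvPolynomial (Option (Fin n)) k) (hg : MvPolynomial.aeval (pt a y) g ≠ 0) :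
    ∃ p : DiscPts n k c, MvPolynomial.eval (pt p.1.1 p.1.2) g ≠ 0 ∧
      ∀ R ∈ S, ∀ x : k, (R.map (MvPolynomial.eval (pt p.1.1 p.1.2))).eval x ≠ 0 := by
  classical
  obtain ⟨t, ht, htg⟩ := disc_rational hn hc hF
  obtain ⟨P, Q, T, D, B⟩ := exists_birat hF.gen ht htg
  have hdisc : (monicPoly a).discr ≠ 0 := by
    intro h0
    rw [← aeval_discMv (k := k) a] at h0
    refine vhp_discMv_ne (k := k) hn ?_
    apply hF.indep
    rw [h0, map_zero]
  have hy : y ≠ 0 := by
    intro h0
    have h1 := hF.eq
    rw [h0, zero_pow two_ne_zero] at h1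
    rcases mul_eq_zero.1 h1 with h2 | h2
    · exact hc ((map_eq_zero _).1 h2)
    · exact hdisc h2
  -- transfer of the covers
  have hcov : ∀ R : (MvPolynomial (Option (Fin n)) k)[X],
      ∃ R' : (MvPolynomial (Fin n) k)[X], R ∈ S → 2 ≤ R'.natDegree ∧
      Irreducible (R'.map (algebraMap (MvPolynomial (Fin n) k)
        (FractionRing (MvPolynomial (Fin n) k)))) ∧
      ∀ s : Fin n → k, MvPolynomial.eval s Q ≠ 0 →
        (∀ x : k, (R'.map (MvPolynomial.eval s)).eval x ≠ 0) →
        ∀ x : k, (R.map (MvPolynomial.eval (fun i =>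
          MvPolynomial.eval s (P i) / MvPolynomial.eval s Q))).eval x ≠ 0 := by
    intro R
    by_cases hR : R ∈ S
    · obtain ⟨R', h⟩ := B.cover htg R (hS R hR).1 (hS R hR).2
      exact ⟨R', fun _ => h⟩
    · exact ⟨0, fun h => absurd h hR⟩
  choose cov hcov using hcov
  have hG : MvPolynomial.aeval (pt a y) (g * MvPolynomial.X none) ≠ 0 := by
    rw [map_mul, MvPolynomial.aeval_X]
    exact mul_ne_zero hg hy
  obtain ⟨g1, hg1, hpar⟩ := B.exists_param (g * MvPolynomial.X none) hG
  obtain ⟨s, hs, hsx⟩ := hk n (S.image cov) (by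
    intro P' hP'
    obtain ⟨R, hR, rfl⟩ := Finset.mem_image.1 hP'
    exact ⟨(hcov R hR).1, (hcov R hR).2.1⟩) g1 hg1
  obtain ⟨hsQ, hsG⟩ := hpar s hs
  set pv : Option (Fin n) → k := fun i => MvPolynomial.eval s (P i) / MvPolynomial.eval s Q
    with hpv
  have hptv : pt (fun i => pv (some i)) (pv none) = pv := by
    funext o
    cases o <;> rfl
  have hG0 : MvPolynomial.aeval (pt a y) (MvPolynomial.X none ^ 2 -
      MvPolynomial.C c * MvPolynomial.rename some (discMv k n)) = 0 := by
    rw [map_sub, map_pow, MvPolynomial.aeval_X, map_mul, MvPolynomial.aeval_C,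
      MvPolynomial.aeval_rename]
    have : (pt a y) ∘ some = a := rfl
    rw [this, aeval_discMv, hF.eq]
    exact sub_self _
  have hfor : MvPolynomial.aeval pv (MvPolynomial.X none ^ 2 -
      MvPolynomial.C c * MvPolynomial.rename some (discMv k n)) = 0 :=
    B.forward (K := k) s hsQ _ hG0
  rw [map_sub, map_pow, MvPolynomial.aeval_X, map_mul, MvPolynomial.aeval_C,
    MvPolynomial.aeval_rename, aeval_discMv, sub_eq_zero] at hfor
  rw [map_mul, MvPolynomial.eval_X] at hsG
  refine ⟨⟨(fun i => pv (some i), pv none), hfor.symm, right_ne_zero_of_mul hsG⟩, ?_, ?_⟩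
  · simp only [hptv]
    exact left_ne_zero_of_mul hsG
  · intro R hR x
    simp only [hptv]
    exact (hcov R hR).2.2 s hsQ (hsx _ (Finset.mem_image_of_mem cov hR)) x

end DiscRat
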