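import Mathlib
import Pool.Agent.H.MP_83e36b_nt.Statement

/-! Module VStat: definitions.
-/

open Polynomial

namespace DiscRat

open AnWA

/-- the point `(p, z)` as a family indexed by `Option (Fin n)` -/
def pt {R : Type*} {n : ℕ} (p : Fin n → R) (z : R) : Option (Fin n) → R := fun o => o.elim z p

/-- `F` is the function field over `k` of the variety `c * disc (f) = y ^ 2`, where
`f = X ^ n + a_{n-1} X ^ (n-1) + ... + a_0`: the `a_i` are algebraically independent over `k`,
`c * disc (f) = y ^ 2`, and `F = k(a_0, ..., a_{n-1}, y)`. -/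
structure IsDiscField (k : Type*) {F : Type*} [Field k] [Field F] [Algebra k F] {n : ℕ} (c : k)
    (a : Fin n → F) (y : F) : Prop where
  indep : AlgebraicIndependent k a
  eq : algebraMap k F c * (monicPoly a).discr = y ^ 2
  gen : IntermediateField.adjoin k (Set.range (pt a y)) = ⊤

/-- Affine spaces over `k` have the Hilbert property, i.e. `k` is a Hilbertian field: for every
finite family of polynomials `P(s_1, ..., s_m, X)` which are irreducible of degree at least two
in `X` over `k(s_1, ..., s_m)` there is a Zariski-dense set of points `s` in `k ^ m` such that no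
polynomial `P(s, X)` has a zero in `k`. -/
def IsHilbertian (k : Type*) [Field k] : Prop :=
  ∀ (m : ℕ) (S : Finset (MvPolynomial (Fin m) k)[X]),
    (∀ P ∈ S, 2 ≤ P.natDegree ∧ Irreducible (P.map
      (algebraMap (MvPolynomial (Fin m) k) (FractionRing (MvPolynomial (Fin m) k))))) →
    ∀ g : MvPolynomial (Fin m) k, g ≠ 0 → ∃ s : Fin m → k, MvPolynomial.eval s g ≠ 0 ∧
      ∀ P ∈ S, ∀ x : k, (P.map (MvPolynomial.eval s)).eval x ≠ 0

end DiscRat
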